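import Pool.Agent.Lib.FT.SpecC

/-!
# C44, block C: the choice of alpha
-/

set_option autoImplicit false

open MeasureTheory

noncomputable section

namespace Pool.Agent.FT

private theorem star_toC {X : Type} [TopologicalSpace X] [CompactSpace X] (f : C(X, ℝ)) :
    star (toC f) = toC f := by
  ext z
  simp [toC]

private theorem norm_toC_le {X : Type} [TopologicalSpace X] [CompactSpace X] (f : C(X, ℝ))
    (h : ∀ z, |f z| ≤ 1) : ‖toC f‖ ≤ 1 := by
  rw [ContinuousMap.norm_le _ zero_le_one]
  intro z
  simpa [toC] using h z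

theorem pAL (hQ : S_Q) : S_AL := by
  intro d n L ξ hξ
  set R := (Fin (n + 1) × Fin d) ⊕ (Fin (n + 1) × Fin L) with hR
  set S := Fin (n + 1) × Fin d with hS
  obtain ⟨δ, hδ, key⟩ := hQ (Fintype.card R) (Fintype.card S) (min ξ (ξ ^ 2))
    (lt_min hξ (by positivity))
  refine ⟨δ, hδ, ?_⟩
  intro D _ _ _ τ P φ h z Y X ρ ε htr hcl hε hG
  have hst := htr.state
  set eR := Fintype.equivFin R
  set eS := Fintype.equivFin S
  set zz : R → D := Sum.elim (fun q => φ q.1 (xc q.2)) (fun q => φ q.1 (toC (h q.2))) with hzz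
  set XX : S → D := fun q => X q.1 q.2 with hXX
  have hx1 : ∀ i m, ‖φ i (xc m)‖ ≤ 1 := by
    intro i m
    refine (NonUnitalStarAlgHom.norm_apply_le (φ i) _).trans (norm_toC_le _ ?_)
    intro p
    have h0 := (p m).2.1
    have h1 := (p m).2.2
    show |((p m : unitInterval) : ℝ)| ≤ 1
    rw [abs_of_nonneg h0]
    exact h1
  have hh1 : ∀ i l, ‖φ i (toC (h l))‖ ≤ 1 := by
    intro i l
    refine (NonUnitalStarAlgHom.norm_apply_le (φ i) _).trans (norm_toC_le _ ?_)
    intro p
    have h0 := hG.hnn l p
    rw [abs_of_nonneg h0]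
    have h1 : (h l p) ^ 2 ≤ 1 := by
      rw [← hG.hsq p]
      exact Finset.single_le_sum (f := fun l => (h l p) ^ 2) (fun _ _ => sq_nonneg _)
        (Finset.mem_univ l)
    nlinarith
  have hsx : ∀ i m, star (φ i (xc m)) = φ i (xc m) := by
    intro i m
    rw [← map_star]
    unfold xc
    rw [star_toC]
  have hsh : ∀ i l, star (φ i (toC (h l))) = φ i (toC (h l)) := by
    intro i l
    rw [← map_star, star_toC]
  obtain ⟨α, hα, hα0, hα1, hατ, hc, hX⟩ := key D τ htr P (fun k => zz (eR.symm k))
    (fun k => XX (eS.symm k)) hcl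
    (by
      intro k
      show zz (eR.symm k) ∈ P
      rcases eR.symm k with q | q
      · exact hG.mem _ _
      · exact hG.mem _ _)
    (by
      intro k
      show star (zz (eR.symm k)) = zz (eR.symm k)
      rcases eR.symm k with q | q
      · exact hsx _ _
      · exact hsh _ _)
    (by
      intro k
      show ‖zz (eR.symm k)‖ ≤ 1
      rcases eR.symm k with q | q
      · exact hx1 _ _
      · exact hh1 _ _)
    (by
      intro k
      exact hG.Xmem _ _)
    (by
      intro k
      exact hG.Xsa _ _)
    (by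
      intro k
      show ‖X (eS.symm k).1 (eS.symm k).2‖ ≤ 3
      set i := (eS.symm k).1
      set m := (eS.symm k).2
      have e1 : X i m = φ i (xc m) - φ (Fin.last n) (xc m) - Y i m := by
        rw [hG.dec i m]
        abel
      rw [e1]
      have h1 := norm_sub_le (φ i (xc m) - φ (Fin.last n) (xc m)) (Y i m)
      have h2 := norm_sub_le (φ i (xc m)) (φ (Fin.last n) (xc m))
      have h3 := hx1 i m
      have h4 := hx1 (Fin.last n) m
      have h5 := hG.Yn i m
      linarith)
    (by
      intro k
      exact hG.X2 _ _)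
  refine ⟨α, hα, hα0, hα1, ?_, ?_, ?_, ?_⟩
  · have hsa : star α = α := (IsSelfAdjoint.of_nonneg hα0).star_eq
    have h1 : α * α ≤ α := by
      rw [← sub_nonneg]
      have hs1 : star (1 - α) = 1 - α := by rw [star_sub, star_one, hsa]
      have e1 : α - α * α = star α * (1 - α) * α + star (1 - α) * α * (1 - α) := by
        rw [hs1, hsa]
        noncomm_ring
      rw [e1]
      exact add_nonneg (star_left_conjugate_nonneg (sub_nonneg.mpr hα1) _)
        (star_left_conjugate_nonneg hα0 _)
    have h2 := hst.re_mono h1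
    have h3 : n2 τ α ^ 2 ≤ ξ ^ 2 := by
      rw [hst.n2_sq, hsa]
      exact h2.trans (hατ.trans (min_le_right _ _))
    exact (sq_le_sq₀ (n2_nonneg _ _) hξ.le).mp h3
  · intro i m
    have := hc (eR (Sum.inl (i, m)))
    simp only [Equiv.symm_apply_apply] at this
    exact this.trans (min_le_left _ _)
  · intro i l
    have := hc (eR (Sum.inr (i, l)))
    simp only [Equiv.symm_apply_apply] at this
    exact this.trans (min_le_left _ _)
  · intro i m
    have := hX (eS (i, m))
    simp only [Equiv.symm_apply_apply] at this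
    exact this.trans (min_le_left _ _)

end Pool.Agent.FT
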