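import Pool.Agent.Lib.FT.SpecC

/-!
# C44, module C/CORE: the abstract core of the shift lemma
-/

set_option autoImplicit false

open MeasureTheory

noncomputable section

namespace Pool.Agent.FT

namespace CORE

variable {A : Type} [CStarAlgebra A]

theorem norm_exp_le {K : A} (hK : star K = K) :
    ‖NormedSpace.exp (Complex.I • K)‖ ≤ 1 := by
  have hsk : Complex.I • K ∈ skewAdjoint A := by
    rw [skewAdjoint.mem_iff, star_smul, hK]
    simp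
  let +nondep : NormedAlgebra ℚ A := .restrictScalars ℚ ℂ A
  have hu := NormedSpace.exp_mem_unitary_of_mem_skewAdjoint hsk
  rcases subsingleton_or_nontrivial A with hA | hA
  · have : NormedSpace.exp (Complex.I • K) = 0 := Subsingleton.elim _ _
    rw [this, norm_zero]; norm_num
  · exact (CStarRing.norm_of_mem_unitary hu).le

theorem exp_comm {K L : A} (h : K * L = L * K) :
    NormedSpace.exp (Complex.I • K) * L = L * NormedSpace.exp (Complex.I • K) := by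
  have h0 : Commute L K := h.symm
  have h1 : Commute L (Complex.I • K) := h0.smul_right Complex.I
  exact (h1.exp_right).symm.eq

theorem mul3 {x y z : A} {p q r : ℝ} (hx : ‖x‖ ≤ p) (hy : ‖y‖ ≤ q) (hz : ‖z‖ ≤ r)
    (hp : 0 ≤ p) (hq : 0 ≤ q) : ‖x * y * z‖ ≤ p * q * r :=
  calc ‖x * y * z‖ ≤ ‖x‖ * ‖y‖ * ‖z‖ :=
        (norm_mul_le _ _).trans (mul_le_mul_of_nonneg_right (norm_mul_le _ _) (norm_nonneg _))
    _ ≤ p * q * r := by gcongr

theorem mul2 {x y : A} {p q : ℝ} (hx : ‖x‖ ≤ p) (hy : ‖y‖ ≤ q)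
    (hp : 0 ≤ p) : ‖x * y‖ ≤ p * q :=
  calc ‖x * y‖ ≤ ‖x‖ * ‖y‖ := norm_mul_le _ _
    _ ≤ p * q := by gcongr

theorem ident (S T Qt Q F₀ Fₙ Λᵢ X X' Y Y' σ : A) :
    (1 + S * Qt * T) * F₀ - Fₙ * (1 + S * Qt * T)
      = (F₀ - Fₙ - S * (X - X') * T) + S * (Q * Λᵢ - Λᵢ * Q) * T + S * (Q * Y - Y' * Q) * T
        + S * (Q * X - (σ - 1) * X) * T - S * (X' * Q - X' * (σ - 1)) * T
        + S * (σ * X - X' * σ) * T
        + S * ((Qt - Q) * (Λᵢ + X + Y) - (Λᵢ + X' + Y') * (Qt - Q)) * T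
        + S * Qt * (T * F₀ - (Λᵢ + X + Y) * T) - (Fₙ * S - S * (Λᵢ + X' + Y')) * Qt * T := by
  noncomm_ring

theorem ident2 {Λᵢ σ : A} (X X' Y Y' : A) (h : σ * Λᵢ = Λᵢ * σ) :
    σ * X - X' * σ = (σ * (Λᵢ + X + Y) - (Λᵢ + X' + Y') * σ) - (σ * Y - Y' * σ) := by
  simp only [mul_add, add_mul, h]
  abel

theorem n9 (a b c d e f g h i : A) :
    ‖a + b + c + d - e + f + g + h - i‖ ≤
      ‖a‖ + ‖b‖ + ‖c‖ + ‖d‖ + ‖e‖ + ‖f‖ + ‖g‖ + ‖h‖ + ‖i‖ := by
  refine (norm_sub_le _ _).trans (add_le_add_left ?_ _)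
  refine (norm_add_le _ _).trans (add_le_add_left ?_ _)
  refine (norm_add_le _ _).trans (add_le_add_left ?_ _)
  refine (norm_add_le _ _).trans (add_le_add_left ?_ _)
  refine (norm_sub_le _ _).trans (add_le_add_left ?_ _)
  refine (norm_add_le _ _).trans (add_le_add_left ?_ _)
  refine (norm_add_le _ _).trans (add_le_add_left ?_ _)
  exact norm_add_le _ _

end CORE

open CORE in
theorem pCORE (h1 : S_SRS) (h2 : S_QX) : S_CORE := by
  obtain ⟨C1, hC1, h1⟩ := h1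
  obtain ⟨C2, hC2, h2⟩ := h2
  refine ⟨13 + 12 * C2 + 20 * C1, by positivity, ?_⟩
  intro A _ S K a F₀ Fₙ Λ Λ' Λᵢ X X' Y Y' e he hKs hK hKa hKL ha hS hSa haL hΛ hΛ' hY hY' hnΛ hnΛ'
    hX hX' hσ hΛs hF hF0 hFn hD
  obtain ⟨hQb, hQl, hexp⟩ := h1 A K hK
  obtain ⟨hX1, hX2, hX3⟩ := h2 A K a hK ha hKa
  have hT : ‖star S‖ ≤ 2 := by rw [norm_star]; exact hS
  have hb : ‖star S * S‖ ≤ 4 := by
    have := mul2 hT hS (by norm_num)
    linarith
  have ha4 : ‖a‖ ≤ 4 := ha.trans (by norm_num)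
  rw [hexp S hS]
  set σ := NormedSpace.exp (Complex.I • K) with hσd
  have hσn : ‖σ‖ ≤ 1 := norm_exp_le hKs
  have hσc : σ * Λᵢ = Λᵢ * σ := exp_comm hKL
  set Qt := Qs K (star S * S) with hQt
  set Q := Qs K a with hQ
  have hQtn : ‖Qt‖ ≤ C1 := hQb _ hb
  have hQn : ‖Q‖ ≤ C1 := hQb _ ha4
  have hDq : ‖Qt - Q‖ ≤ C1 * e := (hQl _ _ hb ha4).trans (mul_le_mul_of_nonneg_left hSa hC1.le)
  have r0 : ‖star S * F₀ - Λ * star S‖ ≤ e := by
    have : star S * F₀ - Λ * star S = star (F₀ * S - S * Λ) := by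
      rw [star_sub, star_mul, star_mul, hF, hΛs]
    rw [this, norm_star]
    exact hF0
  have p1 : ‖Q * Λᵢ - Λᵢ * Q‖ ≤ C2 * e := (hX3 _ hKL).trans (mul_le_mul_of_nonneg_left haL hC2.le)
  have p2 : ‖Q * Y - Y' * Q‖ ≤ 2 * (C1 * e) := by
    have a1 := mul2 hQn hY hC1.le
    have a2 := mul2 hY' hQn he
    have := norm_sub_le (Q * Y) (Y' * Q)
    linarith
  have p3 : ‖Q * X - (σ - 1) * X‖ ≤ C2 * e := (hX1 X).trans (mul_le_mul_of_nonneg_left hX hC2.le)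
  have p4 : ‖X' * Q - X' * (σ - 1)‖ ≤ C2 * e :=
    (hX2 X').trans (mul_le_mul_of_nonneg_left hX' hC2.le)
  have p5 : ‖σ * X - X' * σ‖ ≤ 3 * e := by
    rw [ident2 X X' Y Y' hσc, ← hΛ, ← hΛ']
    have a1 := mul2 hσn hY (by norm_num)
    have a2 := mul2 hY' hσn he
    have a3 := norm_sub_le (σ * Y) (Y' * σ)
    have a4 := norm_sub_le (σ * Λ - Λ' * σ) (σ * Y - Y' * σ)
    linarith
  have p6 : ‖(Qt - Q) * Λ - Λ' * (Qt - Q)‖ ≤ 2 * (C1 * e) := by
    have a1 := mul2 hDq hnΛ (by positivity)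
    have a2 := mul2 hnΛ' hDq (by norm_num)
    have := norm_sub_le ((Qt - Q) * Λ) (Λ' * (Qt - Q))
    linarith
  have b1 := mul3 hS p1 hT (by norm_num) (by positivity)
  have b2 := mul3 hS p2 hT (by norm_num) (by positivity)
  have b3 := mul3 hS p3 hT (by norm_num) (by positivity)
  have b4 := mul3 hS p4 hT (by norm_num) (by positivity)
  have b5 := mul3 hS p5 hT (by norm_num) (by positivity)
  have b6 := mul3 hS p6 hT (by norm_num) (by positivity)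
  have b7 := mul3 hS hQtn r0 (by norm_num) hC1.le
  have b8 := mul3 hFn hQtn hT he hC1.le
  rw [ident S (star S) Qt Q F₀ Fₙ Λᵢ X X' Y Y' σ, ← hΛ, ← hΛ']
  refine (n9 _ _ _ _ _ _ _ _ _).trans ?_
  nlinarith

end Pool.Agent.FT
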