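import Pool.Agent.Lib.FT.SpecC

/-!
# C44, module C/CYC: logarithm of the cyclic matrix
-/

set_option autoImplicit false

open MeasureTheory

noncomputable section

namespace Pool.Agent.FT

namespace CYC

open scoped ComplexOrder

/-- matrices over the complex numbers -/
abbrev MC (n : ℕ) : Type := CStarMatrix (Fin (n + 1)) (Fin (n + 1)) ℂ

/-- the cyclic matrix -/
def s0 (n : ℕ) : MC n := CStarMatrix.ofMatrix (fun i j => if i = j + 1 then 1 else 0)

theorem s0_ap (n : ℕ) (i j : Fin (n + 1)) : s0 n i j = if i = j + 1 then 1 else 0 := rfl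

theorem s0_star_mul (n : ℕ) : star (s0 n) * s0 n = 1 := by
  ext i j
  rw [CStarMatrix.mul_apply, CStarMatrix.one_apply, Finset.sum_eq_single (j + 1)]
  · rw [CStarMatrix.star_apply, s0_ap, s0_ap, if_pos rfl, mul_one]
    by_cases h : i = j
    · rw [h, if_pos rfl, if_pos rfl]; simp
    · rw [if_neg h, if_neg (fun h' => h (add_right_cancel h').symm)]; simp
  · intro k _ hk
    rw [s0_ap n k j, if_neg hk, mul_zero]
  · intro h; exact absurd (Finset.mem_univ _) h

theorem s0_mul_star (n : ℕ) : s0 n * star (s0 n) = 1 := by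
  ext i j
  rw [CStarMatrix.mul_apply, CStarMatrix.one_apply, Finset.sum_eq_single (j - 1)]
  · rw [CStarMatrix.star_apply, s0_ap, s0_ap, sub_add_cancel, if_pos rfl, star_one, mul_one]
  · intro k _ hk
    rw [CStarMatrix.star_apply, s0_ap n j k, if_neg, star_zero, mul_zero]
    intro h
    exact hk (eq_sub_of_add_eq h.symm)
  · intro h; exact absurd (Finset.mem_univ _) h

theorem s0_pow (n m : ℕ) (i j : Fin (n + 1)) :
    (s0 n ^ m) i j = if i = j + m • (1 : Fin (n + 1)) then 1 else 0 := by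
  induction m generalizing i j with
  | zero => rw [pow_zero, CStarMatrix.one_apply, zero_nsmul, add_zero]
  | succ m ih =>
    rw [pow_succ, CStarMatrix.mul_apply, Finset.sum_eq_single (j + 1)]
    · rw [ih, s0_ap, if_pos rfl, mul_one, succ_nsmul', add_assoc]
    · intro k _ hk
      rw [s0_ap, if_neg hk, mul_zero]
    · intro h; exact absurd (Finset.mem_univ _) h

theorem s0_pow_card (n : ℕ) : s0 n ^ (n + 1) = 1 := by
  ext i j
  rw [s0_pow, CStarMatrix.one_apply]
  have : (n + 1) • (1 : Fin (n + 1)) = 0 := by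
    have h := card_nsmul_eq_zero (x := (1 : Fin (n + 1)))
    rwa [Fintype.card_fin] at h
  rw [this, add_zero]

theorem s0_normal (n : ℕ) : IsStarNormal (s0 n) :=
  ⟨by rw [Commute, SemiconjBy, s0_star_mul, s0_mul_star]⟩

theorem s0_spec (n : ℕ) (z : ℂ) (hz : z ∈ spectrum ℂ (s0 n)) : z ^ (n + 1) = 1 := by
  have h := spectrum.pow_mem_pow (s0 n) (n + 1) hz
  rw [s0_pow_card, spectrum.one_eq] at h
  exact h

theorem s0_finite (n : ℕ) : (spectrum ℂ (s0 n)).Finite := by
  have h : (spectrum ℂ (s0 n)) ⊆ {z : ℂ | z ^ (n + 1) = 1} := fun z hz => s0_spec n z hz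
  refine Set.Finite.subset ?_ h
  have : {z : ℂ | z ^ (n + 1) = 1} = ↑(Polynomial.nthRootsFinset (n + 1) (1 : ℂ)) := by
    ext z
    simp [Polynomial.mem_nthRootsFinset (Nat.succ_pos n)]
  rw [this]
  exact Finset.finite_toSet _

theorem s0_norm (n : ℕ) (z : ℂ) (hz : z ∈ spectrum ℂ (s0 n)) : ‖z‖ = 1 := by
  have h := s0_spec n z hz
  have h2 : ‖z‖ ^ (n + 1) = 1 := by rw [← norm_pow, h, norm_one]
  exact (pow_eq_one_iff_of_nonneg (norm_nonneg z) (Nat.succ_ne_zero n)).1 h2

/-- logarithm -/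
def K0 (n : ℕ) : MC n := cfc (fun z : ℂ => ((Complex.arg z : ℝ) : ℂ)) (s0 n)

theorem K0_star (n : ℕ) : star (K0 n) = K0 n := by
  unfold K0
  rw [← cfc_star]
  congr 1
  funext z
  simp

theorem K0_norm (n : ℕ) : ‖K0 n‖ ≤ 4 := by
  unfold K0
  refine norm_cfc_le (by norm_num) (fun z _ => ?_)
  rw [Complex.norm_real, Real.norm_eq_abs]
  have h := Complex.abs_arg_le_pi z
  linarith [Real.pi_lt_four]

theorem K0_exp (n : ℕ) : NormedSpace.exp (Complex.I • K0 n) = s0 n := by
  have hN := s0_normal n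
  have hc : ∀ f : ℂ → ℂ, ContinuousOn f (spectrum ℂ (s0 n)) := fun f => (s0_finite n).continuousOn f
  unfold K0
  rw [← cfc_smul Complex.I (fun z : ℂ => ((Complex.arg z : ℝ) : ℂ)) (s0 n) (hc _),
    ← CFC.complex_exp_eq_normedSpace_exp (cfc_predicate _ _),
    ← cfc_comp' Complex.exp _ (s0 n) (Complex.continuous_exp.continuousOn) (hc _)]
  have e : cfc (fun x : ℂ => Complex.exp (Complex.I • ((Complex.arg x : ℝ) : ℂ))) (s0 n)
      = cfc (fun x : ℂ => x) (s0 n) := by
    refine cfc_congr (fun z hz => ?_)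
    have h1 := Complex.norm_mul_exp_arg_mul_I z
    rw [s0_norm n z hz] at h1
    simp only [smul_eq_mul]
    rw [mul_comm]
    simpa using h1
  rw [e]
  exact cfc_id' ℂ (s0 n)

variable (D : Type) [CStarAlgebra D]

/-- entrywise scalar map -/
def Phi (n : ℕ) : MC n →⋆ₐ[ℂ] CStarMatrix (Fin (n + 1)) (Fin (n + 1)) D where
  toFun M := CStarMatrix.ofMatrix (fun i j => M i j • (1 : D))
  map_one' := by
    ext i j
    change (1 : MC n) i j • (1 : D) = _
    rw [CStarMatrix.one_apply, CStarMatrix.one_apply]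
    split_ifs <;> simp
  map_mul' M N := by
    ext i j
    change (M * N) i j • (1 : D) = _
    rw [CStarMatrix.mul_apply, CStarMatrix.mul_apply, Finset.sum_smul]
    refine Finset.sum_congr rfl (fun k _ => ?_)
    change _ = (M i k • (1 : D)) * (N k j • (1 : D))
    rw [smul_mul_smul_comm, one_mul]
  map_zero' := by
    ext i j
    change (0 : MC n) i j • (1 : D) = 0
    rw [CStarMatrix.zero_apply, zero_smul]
  map_add' M N := by
    ext i j
    change (M + N) i j • (1 : D) = M i j • (1 : D) + N i j • (1 : D)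
    rw [CStarMatrix.add_apply, add_smul]
  commutes' r := by
    ext i j
    change (algebraMap ℂ (MC n) r) i j • (1 : D) = _
    rw [CStarMatrix.algebraMap_apply, CStarMatrix.algebraMap_apply]
    split_ifs
    · rw [Algebra.algebraMap_eq_smul_one, Algebra.algebraMap_eq_smul_one, smul_eq_mul, mul_one]
    · rw [zero_smul]
  map_star' M := by
    ext i j
    change (star M) i j • (1 : D) = _
    rw [CStarMatrix.star_apply, CStarMatrix.star_apply]
    change _ = star (M j i • (1 : D))
    rw [star_smul, star_one]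

theorem Phi_ap (n : ℕ) (M : MC n) : Phi D n M = sclM D (fun i j => M i j) := rfl

end CYC

open CYC in
open scoped ComplexOrder in
theorem pCYC : S_CYC := by
  intro n D _ _ _
  refine ⟨fun i j => K0 n i j, ?_, ?_, ?_⟩
  · rw [← Phi_ap, ← map_star, K0_star]
  · rw [← Phi_ap]
    exact (NonUnitalStarAlgHom.norm_apply_le (Phi D n) (K0 n)).trans (K0_norm n)
  · rw [← Phi_ap, ← map_smul]
    have hcont : Continuous (Phi D n) :=
      AddMonoidHomClass.continuous_of_bound (Phi D n) 1 (fun x => by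
        rw [one_mul]; exact NonUnitalStarAlgHom.norm_apply_le (Phi D n) x)
    let +nondep : NormedAlgebra ℚ (MC n) := .restrictScalars ℚ ℂ (MC n)
    let +nondep : Algebra ℚ (CStarMatrix (Fin (n + 1)) (Fin (n + 1)) D) :=
      .restrictScalars ℚ ℂ (CStarMatrix (Fin (n + 1)) (Fin (n + 1)) D)
    rw [← NormedSpace.map_exp (Phi D n) hcont, K0_exp, Phi_ap]
    rfl

end Pool.Agent.FT
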