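import Pool.Agent.Lib.FT.SpecC

/-!
# C44, block C: Gram matrix estimates
-/

set_option autoImplicit false

open MeasureTheory

noncomputable section

namespace Pool.Agent.FT

private theorem star_toC {X : Type} [TopologicalSpace X] [CompactSpace X] (f : C(X, ℝ)) :
    star (toC f) = toC f := by
  ext z
  simp [toC]

private theorem norm_toC_le {X : Type} [TopologicalSpace X] [CompactSpace X] (f : C(X, ℝ))
    (h : ∀ z, |f z| ≤ 1) : ‖toC f‖ ≤ 1 := by
  rw [ContinuousMap.norm_le _ zero_le_one]
  intro z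
  simpa [toC] using h z

theorem pGRM (hGG : S_G) : S_GRM := by
  intro d n L ρ hρ
  refine ⟨3 * (L : ℝ) ^ 2 * ρ⁻¹ + 2 * L + L * ρ⁻¹ + 1, by positivity, ?_⟩
  intro D _ _ _ τ P w φ h z Y X ε δ ξ κ α htr hs hG hξ1 hκ hα hα0 hα1 hαξ hc
  have hst := htr.state
  have hξ0 : 0 ≤ ξ := (n2_nonneg _ _).trans hαξ
  have hsa : star α = α := (IsSelfAdjoint.of_nonneg hα0).star_eq
  have hαn : ‖α‖ ≤ 1 := (CStarAlgebra.norm_le_one_iff_of_nonneg α hα0).mpr hα1
  have hh1 : ∀ i l, ‖φ i (toC (h l))‖ ≤ 1 := by
    intro i l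
    refine (NonUnitalStarAlgHom.norm_apply_le (φ i) _).trans (norm_toC_le _ ?_)
    intro p
    have h0 := hG.hnn l p
    rw [abs_of_nonneg h0]
    have h1 : (h l p) ^ 2 ≤ 1 := by
      rw [← hG.hsq p]
      exact Finset.single_le_sum (f := fun l => (h l p) ^ 2) (fun _ _ => sq_nonneg _)
        (Finset.mem_univ l)
    nlinarith
  have hsh : ∀ i l, star (φ i (toC (h l))) = φ i (toC (h l)) := by
    intro i l
    rw [← map_star, star_toC]
  set r : Fin L → ℝ := fun l => (τ (φ (Fin.last n) (toC (h l) * toC (h l)))).re with hr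
  have hrρ : ∀ l, ρ ≤ r l := hG.mass
  have hr0 : ∀ l, 0 < r l := fun l => hρ.trans_le (hrρ l)
  set c : Fin L → ℝ := fun l => (Real.sqrt (r l))⁻¹ with hcdef
  have hc0 : ∀ l, 0 ≤ c l := fun l => inv_nonneg.mpr (Real.sqrt_nonneg _)
  have hc2 : ∀ l, c l ^ 2 * r l = 1 := by
    intro l
    have := hr0 l
    simp only [hcdef, inv_pow, Real.sq_sqrt (hr0 l).le]
    field_simp
  set M : ℝ := (Real.sqrt ρ)⁻¹ with hMdef
  have hM0 : 0 ≤ M := inv_nonneg.mpr (Real.sqrt_nonneg _)
  have hM2 : M ^ 2 = ρ⁻¹ := by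
    simp only [hMdef, inv_pow, Real.sq_sqrt hρ.le]
  have hcM : ∀ l, c l ≤ M := by
    intro l
    exact inv_anti₀ (Real.sqrt_pos.mpr hρ) (Real.sqrt_le_sqrt (hrρ l))
  set p : Fin L → D := fun l => ((c l : ℝ) : ℂ) • φ (Fin.last n) (toC (h l)) with hp
  have hpP : ∀ l, p l ∈ P := fun l => P.smul_mem (hG.mem _ _) _
  have hpM : ∀ l, ‖p l‖ ≤ M := by
    intro l
    rw [hp]
    simp only [norm_smul, Complex.norm_real, Real.norm_eq_abs, abs_of_nonneg (hc0 l)]
    calc c l * ‖φ (Fin.last n) (toC (h l))‖ ≤ M * 1 :=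
          mul_le_mul (hcM l) (hh1 _ _) (norm_nonneg _) hM0
      _ = M := mul_one M
  have hpp : ∀ l, τ (star (p l) * p l) = 1 := by
    intro l
    have h1 : star (p l) * p l = ((c l ^ 2 : ℝ) : ℂ) •
        φ (Fin.last n) (toC (h l) * toC (h l)) := by
      rw [hp]
      simp only [star_smul, Complex.star_def, Complex.conj_ofReal, hsh, smul_mul_smul_comm,
        map_mul]
      rw [← Complex.ofReal_mul, sq]
    rw [h1, map_smul]
    have h2 : τ (φ (Fin.last n) (toC (h l) * toC (h l))) = ((r l : ℝ) : ℂ) := by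
      apply Complex.ext
      · rw [Complex.ofReal_re]
      · rw [Complex.ofReal_im]
        have := (hst.2 (φ (Fin.last n) (toC (h l)))).2
        rw [hsh, ← map_mul] at this
        exact this
    rw [h2, smul_eq_mul, ← Complex.ofReal_mul, hc2 l, Complex.ofReal_one]
  set b : Fin n → Fin L → D := fun i l => φ i.succ (toC (h l)) with hb
  have hbP : ∀ i l, b i l ∈ P := fun i l => hG.mem _ _
  have hb1 : ∀ i l, ‖b i l‖ ≤ 1 := fun i l => hh1 _ _
  have hsv : ∀ i, sv τ w φ h κ α i = ∑ l, p l * w (κ i l) * α * b i l := fun i => rfl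
  have hn0 := n2_nonneg τ α
  have hE : 3 * (L : ℝ) ^ 2 * M ^ 2 * n2 τ α ≤ 3 * (L : ℝ) ^ 2 * ρ⁻¹ * ξ := by
    rw [hM2]
    exact mul_le_mul_of_nonneg_left hαξ (by positivity)
  have hLξ : 0 ≤ (L : ℝ) * ρ⁻¹ * ξ := by positivity
  have hLξ2 : 0 ≤ (L : ℝ) * ξ := by positivity
  constructor
  · intro i j
    have key := hGG D τ P w htr hs α hα hsa hαn n L M p p b b κ hpP hpM hpP hpM hbP hb1 hbP hb1
      hκ i j
    rw [← hsv i, ← hsv j] at key
    by_cases hij : i = j
    · subst hij
      rw [if_pos rfl] at key ⊢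
      set T : D := ∑ l, τ (star (p l) * p l) • (star (b i l) * (α * α) * b i l) with hT
      have h1 : ‖T - α * α‖ ≤ 2 * L * ξ := by
        have hone : ∑ l, b i l * b i l = 1 := by
          have e1 : ∑ l, toC (h l) * toC (h l) = (1 : C(Cube d, ℂ)) := by
            ext q
            rw [ContinuousMap.sum_apply]
            have := hG.hsq q
            simp only [toC, ContinuousMap.mul_apply, ContinuousMap.coe_mk,
              ContinuousMap.one_apply]
            rw [← Complex.ofReal_one, ← this, Complex.ofReal_sum]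
            apply Finset.sum_congr rfl
            intro l _
            rw [sq, Complex.ofReal_mul]
          have e2 := congrArg (φ i.succ) e1
          rw [map_sum, map_one] at e2
          rw [← e2]
          apply Finset.sum_congr rfl
          intro l _
          rw [map_mul]
        have e3 : T - α * α = ∑ l, (b i l * (α * α) - α * α * b i l) * b i l := by
          simp only [sub_mul, Finset.sum_sub_distrib]
          congr 1
          · rw [hT]
            apply Finset.sum_congr rfl
            intro l _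
            rw [hpp l, one_smul, hb, hsh]
          · simp only [mul_assoc]
            rw [← Finset.mul_sum, ← Finset.mul_sum, hone, mul_one]
        rw [e3]
        have e4 : ∀ l, ‖(b i l * (α * α) - α * α * b i l) * b i l‖ ≤ 2 * ξ := by
          intro l
          have e5 : b i l * (α * α) - α * α * b i l =
              -((α * b i l - b i l * α) * α + α * (α * b i l - b i l * α)) := by
            noncomm_ring
          have e6 := hc i.succ l
          have e7 : ‖b i l * (α * α) - α * α * b i l‖ ≤ 2 * ξ := by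
            rw [e5, norm_neg]
            calc _ ≤ ‖(α * b i l - b i l * α) * α‖ + ‖α * (α * b i l - b i l * α)‖ :=
                  norm_add_le _ _
              _ ≤ ‖α * b i l - b i l * α‖ * ‖α‖ + ‖α‖ * ‖α * b i l - b i l * α‖ :=
                  add_le_add (norm_mul_le _ _) (norm_mul_le _ _)
              _ ≤ ξ * 1 + 1 * ξ := by
                  apply add_le_add
                  · exact mul_le_mul e6 hαn (norm_nonneg _) hξ0
                  · exact mul_le_mul hαn e6 (norm_nonneg _) zero_le_one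
              _ = 2 * ξ := by ring
          calc _ ≤ ‖b i l * (α * α) - α * α * b i l‖ * ‖b i l‖ := norm_mul_le _ _
            _ ≤ 2 * ξ * 1 := mul_le_mul e7 (hb1 i l) (norm_nonneg _) (by positivity)
            _ = 2 * ξ := mul_one _
        calc _ ≤ ∑ l, ‖(b i l * (α * α) - α * α * b i l) * b i l‖ := norm_sum_le _ _
          _ ≤ ∑ _l : Fin L, 2 * ξ := Finset.sum_le_sum (fun l _ => e4 l)
          _ = 2 * L * ξ := by
            rw [Finset.sum_const, Finset.card_univ, Fintype.card_fin, nsmul_eq_mul]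
            ring
      calc _ = ‖(star (sv τ w φ h κ α i) * sv τ w φ h κ α i - T) + (T - α * α)‖ := by
            congr 1
            abel
        _ ≤ 3 * (L : ℝ) ^ 2 * M ^ 2 * n2 τ α + 2 * L * ξ :=
            (norm_add_le _ _).trans (add_le_add key h1)
        _ ≤ (3 * (L : ℝ) ^ 2 * ρ⁻¹ + 2 * L + L * ρ⁻¹ + 1) * ξ := by
            nlinarith
    · rw [if_neg hij] at key ⊢
      refine key.trans (hE.trans ?_)
      nlinarith
  · intro j
    have hαpM : ∀ l, ‖α * p l‖ ≤ M := by
      intro l
      calc _ ≤ ‖α‖ * ‖p l‖ := norm_mul_le _ _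
        _ ≤ 1 * M := mul_le_mul hαn (hpM l) (norm_nonneg _) zero_le_one
        _ = M := one_mul M
    have hαpP : ∀ l, α * p l ∈ P := fun l => P.mul_mem hα (hpP l)
    have key := hGG D τ P w htr hs α hα hsa hαn n L M (fun l => α * p l) (fun l => α * p l) b b κ
      hαpP hαpM hαpP hαpM hbP hb1 hbP hb1 hκ j j
    rw [if_pos rfl] at key
    have e1 : α * sv τ w φ h κ α j = ∑ l, α * p l * w (κ j l) * α * b j l := by
      rw [hsv, Finset.mul_sum]
      apply Finset.sum_congr rfl
      intro l _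
      simp only [mul_assoc]
    rw [← e1] at key
    set T : D := ∑ l, τ (star (α * p l) * (α * p l)) • (star (b j l) * (α * α) * b j l) with hT
    have hTn : ‖T‖ ≤ L * ρ⁻¹ * ξ := by
      have e2 : ∀ l, ‖τ (star (α * p l) * (α * p l)) • (star (b j l) * (α * α) * b j l)‖
          ≤ ρ⁻¹ * ξ := by
        intro l
        rw [norm_smul, ← hst.n2_sq' (α * p l), Complex.norm_real, Real.norm_eq_abs,
          abs_of_nonneg (sq_nonneg _)]
        have e3 : n2 τ (α * p l) ≤ ξ * M := by
          refine (htr.n2_mul_le' _ _).trans ?_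
          exact mul_le_mul hαξ (hpM l) (norm_nonneg _) hξ0
        have e4 : n2 τ (α * p l) ^ 2 ≤ ρ⁻¹ * ξ := by
          calc n2 τ (α * p l) ^ 2 ≤ (ξ * M) ^ 2 := pow_le_pow_left₀ (n2_nonneg _ _) e3 2
            _ = ρ⁻¹ * (ξ * ξ) := by rw [mul_pow, hM2]; ring
            _ ≤ ρ⁻¹ * (ξ * 1) := by
              apply mul_le_mul_of_nonneg_left _ (inv_nonneg.mpr hρ.le)
              exact mul_le_mul_of_nonneg_left hξ1 hξ0
            _ = ρ⁻¹ * ξ := by rw [mul_one]
        have e5 : ‖star (b j l) * (α * α) * b j l‖ ≤ 1 := by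
          calc _ ≤ ‖star (b j l) * (α * α)‖ * ‖b j l‖ := norm_mul_le _ _
            _ ≤ (‖star (b j l)‖ * ‖α * α‖) * ‖b j l‖ := by
                gcongr
                exact norm_mul_le _ _
            _ ≤ (1 * (1 * 1)) * 1 := by
                rw [norm_star]
                gcongr
                · exact hb1 j l
                · exact (norm_mul_le _ _).trans (mul_le_mul hαn hαn (norm_nonneg _) zero_le_one)
                · exact hb1 j l
            _ = 1 := by norm_num
        calc _ ≤ ρ⁻¹ * ξ * 1 := mul_le_mul e4 e5 (norm_nonneg _) (by positivity)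
          _ = ρ⁻¹ * ξ := mul_one _
      calc ‖T‖ ≤ ∑ l, ‖τ (star (α * p l) * (α * p l)) • (star (b j l) * (α * α) * b j l)‖ :=
            norm_sum_le _ _
        _ ≤ ∑ _l : Fin L, ρ⁻¹ * ξ := Finset.sum_le_sum (fun l _ => e2 l)
        _ = L * ρ⁻¹ * ξ := by
          rw [Finset.sum_const, Finset.card_univ, Fintype.card_fin, nsmul_eq_mul]
          ring
    have e6 : ‖α * sv τ w φ h κ α j‖ ^ 2 =
        ‖star (α * sv τ w φ h κ α j) * (α * sv τ w φ h κ α j)‖ := by
      rw [CStarRing.norm_star_mul_self, sq]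
    rw [e6]
    calc _ = ‖(star (α * sv τ w φ h κ α j) * (α * sv τ w φ h κ α j) - T) + T‖ := by
          congr 1
          abel
      _ ≤ 3 * (L : ℝ) ^ 2 * M ^ 2 * n2 τ α + L * ρ⁻¹ * ξ :=
          (norm_add_le _ _).trans (add_le_add key hTn)
      _ ≤ (3 * (L : ℝ) ^ 2 * ρ⁻¹ + 2 * L + L * ρ⁻¹ + 1) * ξ := by
          nlinarith

end Pool.Agent.FT
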