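import Pool.Agent.Lib.FT.SpecC

/-!
# C44, block C, module GSL (helper59): the shift lemma, assembly
-/

set_option autoImplicit false

open MeasureTheory

noncomputable section

namespace Pool.Agent.FT

/-- the core estimate for one coordinate -/
private theorem gslA {C₀ : ℝ} (hC : ∀ (A : Type) [CStarAlgebra A]
    (S K a F₀ Fₙ Λ Λ' Λᵢ X X' Y Y' : A) (e : ℝ),
    0 ≤ e → star K = K → ‖K‖ ≤ 4 → K * a = a * K → K * Λᵢ = Λᵢ * K → ‖a‖ ≤ 1 → ‖S‖ ≤ 2 →
    ‖star S * S - a‖ ≤ e → ‖a * Λᵢ - Λᵢ * a‖ ≤ e →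
    Λ = Λᵢ + X + Y → Λ' = Λᵢ + X' + Y' → ‖Y‖ ≤ e → ‖Y'‖ ≤ e → ‖Λ‖ ≤ 1 → ‖Λ'‖ ≤ 1 →
    ‖(1 - a) * X‖ ≤ e → ‖X' * (1 - a)‖ ≤ e →
    ‖NormedSpace.exp (Complex.I • K) * Λ - Λ' * NormedSpace.exp (Complex.I • K)‖ ≤ e →
    star Λ = Λ → star F₀ = F₀ → ‖F₀ * S - S * Λ‖ ≤ e → ‖Fₙ * S - S * Λ'‖ ≤ e →
    ‖(F₀ - Fₙ) - S * (X - X') * star S‖ ≤ e →
    ‖NormedSpace.exp (Complex.I • (S * K * star S)) * F₀ -
      Fₙ * NormedSpace.exp (Complex.I • (S * K * star S))‖ ≤ C₀ * e)
    (hMT1 : S_MT1) (hMT2 : S_MT2) (D : Type) [CStarAlgebra D] [PartialOrder D] [StarOrderedRing D]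
    (n : ℕ) (κ : Fin (n + 1) → Fin (n + 1) → ℂ) (hκ1 : star (sclM D κ) = sclM D κ)
    (hκ2 : ‖sclM D κ‖ ≤ 4) (hκ3 : NormedSpace.exp (Complex.I • sclM D κ) = cycM D n)
    (α : D) (hα : star α = α) (hα1 : ‖α‖ ≤ 1) (t : Fin n → D) (g X Y : Fin (n + 1) → D) (ε : ℝ)
    (hε : 0 ≤ ε) (hg : ∀ i, star (g i) = g i) (hg1 : ∀ i, ‖g i‖ ≤ 1)
    (hdec : ∀ i, g i - g (Fin.last n) = Y i + X i) (hX : ∀ i, star (X i) = X i)
    (hY : ∀ i, ‖Y i‖ ≤ ε) (hnear : ∀ i : Fin n, ‖g i.castSucc - g i.succ‖ ≤ ε)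
    (hcomm : ∀ i, ‖α * g i - g i * α‖ ≤ ε) (hαX : ∀ i, ‖(1 - α) * X i‖ ≤ ε)
    (hgram : ‖star (rowM (Fin.cons α t : Fin (n + 1) → D)) *
      rowM (Fin.cons α t : Fin (n + 1) → D) - diagM (fun _ => α * α)‖ ≤ ε)
    (hS : ‖rowM (Fin.cons α t : Fin (n + 1) → D)‖ ≤ 2)
    (h1 : ‖rowM (Fin.cons (0 : D) (fun j => g 0 * t j - t j * g j.succ) :
      Fin (n + 1) → D)‖ ≤ 5 * ε)
    (h2 : ‖rowM (Fin.cons (0 : D) (fun j => g (Fin.last n) * t j - t j * g j.succ) :
      Fin (n + 1) → D)‖ ≤ 5 * ε) :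
    ‖NormedSpace.exp (Complex.I • (rowM (Fin.cons α t : Fin (n + 1) → D) * sclM D κ *
        star (rowM (Fin.cons α t : Fin (n + 1) → D)))) * cornM n (g 0) -
      cornM n (g (Fin.last n)) * NormedSpace.exp (Complex.I •
        (rowM (Fin.cons α t : Fin (n + 1) → D) * sclM D κ *
        star (rowM (Fin.cons α t : Fin (n + 1) → D))))‖ ≤ C₀ * (6 * ε) := by
  obtain ⟨m1, m2, m3, m4, m5, m6, m7, m8, m9, m10, m11, m12, m13, m14, m15⟩ := hMT1 D n
  obtain ⟨q1, q2, q3, q4, q5, q6, q7⟩ := hMT2 D n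
  have hαα : ‖α * α‖ ≤ 1 := (norm_mul_le _ _).trans (mul_le_one₀ hα1 (norm_nonneg _) hα1)
  have key1 : ∀ x : D, ‖(1 - α) * x‖ ≤ ε → ‖(1 - α * α) * x‖ ≤ 2 * ε := by
    intro x hx
    have e : (1 - α * α) * x = (1 - α) * x + α * ((1 - α) * x) := by noncomm_ring
    rw [e]
    have h3 : ‖α * ((1 - α) * x)‖ ≤ 1 * ε :=
      (norm_mul_le _ _).trans (mul_le_mul hα1 hx (norm_nonneg _) zero_le_one)
    exact (norm_add_le _ _).trans (by linarith)
  refine hC (CStarMatrix (Fin (n + 1)) (Fin (n + 1)) D) (rowM (Fin.cons α t : Fin (n + 1) → D))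
    (sclM D κ) (diagM (fun _ => α * α)) (cornM n (g 0)) (cornM n (g (Fin.last n))) (diagM g)
    (diagM (Fin.cons (g (Fin.last n)) (fun i => g i.succ) : Fin (n + 1) → D))
    (diagM (fun _ => g (Fin.last n))) (diagM X)
    (diagM (Fin.cons 0 (fun i => X i.succ) : Fin (n + 1) → D)) (diagM Y)
    (diagM (Fin.cons 0 (fun i => Y i.succ) : Fin (n + 1) → D)) (6 * ε)
    (by linarith) hκ1 hκ2 (m14 _ _) (m14 _ _) (q2 _ _ fun _ => hαα) hS (hgram.trans (by linarith))
    ?_ ?_ ?_ ?_ ?_ ?_ ?_ ?_ ?_ ?_ ?_ ?_ ?_ ?_ ?_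
  · -- commutator
    rw [m2, m2, m5]
    apply q2
    intro i
    have e : α * α * g (Fin.last n) - g (Fin.last n) * (α * α) =
        α * (α * g (Fin.last n) - g (Fin.last n) * α) +
        (α * g (Fin.last n) - g (Fin.last n) * α) * α := by noncomm_ring
    rw [e]
    have h3 : ‖α * (α * g (Fin.last n) - g (Fin.last n) * α)‖ ≤ 1 * ε :=
      (norm_mul_le _ _).trans (mul_le_mul hα1 (hcomm _) (norm_nonneg _) zero_le_one)
    have h4 : ‖(α * g (Fin.last n) - g (Fin.last n) * α) * α‖ ≤ ε * 1 :=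
      (norm_mul_le _ _).trans (mul_le_mul (hcomm _) hα1 (norm_nonneg _) hε)
    exact (norm_add_le _ _).trans (by linarith)
  · -- Λ
    rw [m4, m4]
    congr 1
    funext i
    have := hdec i
    rw [add_assoc, add_comm (X i), ← this]
    abel
  · -- Λ'
    rw [m4, m4]
    congr 1
    funext i
    refine Fin.cases ?_ (fun i => ?_) i
    · simp
    · simp only [Fin.cons_succ]
      have := hdec i.succ
      rw [add_assoc, add_comm (X i.succ), ← this]
      abel
  · apply q2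
    intro i
    exact (hY i).trans (by linarith)
  · apply q2
    intro i
    refine Fin.cases ?_ (fun i => ?_) i
    · simp only [Fin.cons_zero, norm_zero]
      linarith
    · simp only [Fin.cons_succ]
      exact (hY _).trans (by linarith)
  · exact q2 _ _ hg1
  · apply q2
    intro i
    refine Fin.cases ?_ (fun i => ?_) i
    · simp only [Fin.cons_zero]
      exact hg1 _
    · simp only [Fin.cons_succ]
      exact hg1 _
  · rw [← m1, m5, m2]
    apply q2
    intro i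
    exact (key1 _ (hαX i)).trans (by linarith)
  · rw [← m1, m5, m2]
    apply q2
    intro i
    refine Fin.cases ?_ (fun i => ?_) i
    · simp only [Fin.cons_zero, zero_mul, norm_zero]
      linarith
    · simp only [Fin.cons_succ]
      have e : X i.succ * (1 - α * α) = star ((1 - α * α) * X i.succ) := by
        rw [star_mul, star_sub, star_one, star_mul, hα, hX]
      rw [e, norm_star]
      exact (key1 _ (hαX _)).trans (by linarith)
  · rw [hκ3, m15]
    refine (norm_mul_le _ _).trans ?_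
    have h3 : ‖(diagM fun j => g j - (Fin.cons (g (Fin.last n)) (fun i => g i.succ) :
        Fin (n + 1) → D) (j + 1))‖ ≤ ε := by
      apply q2
      intro j
      refine Fin.lastCases ?_ (fun i => ?_) j
      · rw [Fin.last_add_one, Fin.cons_zero, sub_self, norm_zero]
        exact hε
      · rw [Fin.coeSucc_eq_succ, Fin.cons_succ]
        exact hnear i
    have h4 := mul_le_mul q7 h3 (norm_nonneg _) zero_le_one
    linarith
  · rw [m3]
    congr 1
    funext i
    exact hg i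
  · rw [m13, hg]
  · rw [m7, m6, m8]
    have e : (fun j => g 0 * (Fin.cons α t : Fin (n + 1) → D) j -
        (Fin.cons α t : Fin (n + 1) → D) j * g j) =
        (Fin.cons (g 0 * α - α * g 0) (fun j => g 0 * t j - t j * g j.succ) :
          Fin (n + 1) → D) := by
      funext i
      refine Fin.cases ?_ (fun i => ?_) i
      · simp only [Fin.cons_zero]
      · simp only [Fin.cons_succ]
    rw [e]
    refine (q5 _ _).trans ?_
    have h3 : ‖g 0 * α - α * g 0‖ ≤ ε := by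
      rw [← norm_neg, neg_sub]
      exact hcomm 0
    linarith
  · rw [m7, m6, m8]
    have e : (fun j => g (Fin.last n) * (Fin.cons α t : Fin (n + 1) → D) j -
        (Fin.cons α t : Fin (n + 1) → D) j *
          (Fin.cons (g (Fin.last n)) (fun i => g i.succ) : Fin (n + 1) → D) j) =
        (Fin.cons (g (Fin.last n) * α - α * g (Fin.last n))
          (fun j => g (Fin.last n) * t j - t j * g j.succ) : Fin (n + 1) → D) := by
      funext i
      refine Fin.cases ?_ (fun i => ?_) i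
      · simp only [Fin.cons_zero]
      · simp only [Fin.cons_succ]
    rw [e]
    refine (q5 _ _).trans ?_
    have h3 : ‖g (Fin.last n) * α - α * g (Fin.last n)‖ ≤ ε := by
      rw [← norm_neg, neg_sub]
      exact hcomm _
    linarith
  · rw [m12, m5, m10, m12, q3]
    have e : ∑ i, ∑ j, (Fin.cons α t : Fin (n + 1) → D) i *
        (diagM fun i => X i - (Fin.cons 0 (fun i => X i.succ) : Fin (n + 1) → D) i) i j *
        star ((Fin.cons α t : Fin (n + 1) → D) j) = α * X 0 * α := by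
      have e0 : ∀ i j : Fin (n + 1), (diagM fun i => X i -
          (Fin.cons 0 (fun i => X i.succ) : Fin (n + 1) → D) i) i j =
          if i = 0 ∧ j = 0 then X 0 else 0 := by
        intro i j
        show (if i = j then _ else (0 : D)) = _
        refine Fin.cases ?_ (fun i => ?_) i
        · refine Fin.cases ?_ (fun j => ?_) j
          · simp
          · simp [(Fin.succ_ne_zero j).symm, Fin.succ_ne_zero j]
        · simp [Fin.succ_ne_zero i]
      simp only [e0]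
      rw [Finset.sum_eq_single 0, Finset.sum_eq_single 0]
      · simp [hα]
      · intro j _ hj
        simp [hj]
      · intro hne
        exact absurd (Finset.mem_univ _) hne
      · intro i _ hi
        simp [hi]
      · intro hne
        exact absurd (Finset.mem_univ _) hne
    rw [e]
    have e2 : g 0 - g (Fin.last n) - α * X 0 * α =
        Y 0 + ((1 - α) * X 0 + α * star ((1 - α) * X 0)) := by
      rw [hdec 0, star_mul, star_sub, star_one, hα, hX]
      noncomm_ring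
    rw [e2]
    have h3 : ‖α * star ((1 - α) * X 0)‖ ≤ 1 * ε :=
      (norm_mul_le _ _).trans (mul_le_mul hα1 ((norm_star _).le.trans (hαX 0)) (norm_nonneg _)
        zero_le_one)
    have h4 := norm_add_le (Y 0) ((1 - α) * X 0 + α * star ((1 - α) * X 0))
    have h5 := norm_add_le ((1 - α) * X 0) (α * star ((1 - α) * X 0))
    have h6 := hY 0
    have h7 := hαX 0
    linarith

private theorem gslMono {D : Type} [CStarAlgebra D] {d n L : ℕ} {τ : D →ₗ[ℂ] ℂ}
    {P : StarSubalgebra ℂ D} {φ : Fin (n + 1) → C(Cube d, ℂ) →⋆ₐ[ℂ] D} {h : Fin L → C(Cube d, ℝ)}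
    {z : Fin L → Cube d} {Y X : Fin (n + 1) → Fin d → D} {ρ ε δ δ' : ℝ} (hδ : δ ≤ δ')
    (hg : GData τ P φ h z Y X ρ ε δ) : GData τ P φ h z Y X ρ ε δ' :=
  { hg with X2 := fun i m => (hg.X2 i m).trans hδ }

private theorem gslXc {d : ℕ} (m : Fin d) : ‖(xc m : C(Cube d, ℂ))‖ ≤ 1 ∧
    star (xc m : C(Cube d, ℂ)) = xc m := by
  constructor
  · rw [ContinuousMap.norm_le _ zero_le_one]
    intro p
    show ‖((p m : ℝ) : ℂ)‖ ≤ 1
    rw [Complex.norm_real, Real.norm_eq_abs, abs_of_nonneg (p m).2.1]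
    exact (p m).2.2
  · ext p
    show (starRingEnd ℂ) ((p m : ℝ) : ℂ) = ((p m : ℝ) : ℂ)
    exact Complex.conj_ofReal _

private theorem gslExp {D : Type} [CStarAlgebra D] (E : StarSubalgebra ℂ D)
    (hE : IsClosed (E : Set D)) {k : D} (hk : k ∈ E) : NormedSpace.exp k ∈ E := by
  let _ : Algebra ℚ D := Algebra.compHom D (algebraMap ℚ ℂ)
  have _ : IsScalarTower ℚ ℂ D := IsScalarTower.of_algebraMap_eq (fun x => rfl)
  exact NormedSpace.exp_mem (R := ℂ) hE hk

private theorem gslSv {D : Type} [CStarAlgebra D] {d n L : ℕ} {τ : D →ₗ[ℂ] ℂ}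
    {P : StarSubalgebra ℂ D} {w : ℕ → D} {φ : Fin (n + 1) → C(Cube d, ℂ) →⋆ₐ[ℂ] D}
    {h : Fin L → C(Cube d, ℝ)} (hφ : ∀ i f, φ i f ∈ P) (κ : Fin n → Fin L → ℕ) {α : D}
    (hα : α ∈ P) (i : Fin n) : sv τ w φ h κ α i ∈ WA P w := by
  have hP : ∀ x ∈ P, x ∈ WA P w := fun x hx =>
    StarAlgebra.subset_adjoin ℂ _ (Or.inl hx)
  have hw : ∀ j, w j ∈ WA P w := fun j =>
    StarAlgebra.subset_adjoin ℂ _ (Or.inr ⟨j, rfl⟩)
  unfold sv
  refine sum_mem fun l _ => ?_
  exact mul_mem (mul_mem (mul_mem (SMulMemClass.smul_mem _ (hP _ (hφ _ _))) (hw _)) (hP _ hα))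
    (hP _ (hφ _ _))

theorem pGSL (hCYC : S_CYC) (hCORE : S_CORE) (hMT1 : S_MT1) (hMT2 : S_MT2) (hAL : S_AL)
    (hGRM : S_GRM) (hINT : S_INT) : S_GSL := by
  obtain ⟨C₀, hC₀, hC⟩ := hCORE
  refine ⟨6 * C₀, by positivity, fun d n L ρ ε hρ hε hε1 => ?_⟩
  obtain ⟨C₁, hC₁, hG⟩ := hGRM d n L ρ hρ
  obtain ⟨C₂, hC₂, hI⟩ := hINT d n L ρ hρ
  -- the parameters
  obtain ⟨N, hN⟩ : ∃ N : ℝ, N = 2 * ((n : ℝ) + 1) ^ 2 := ⟨_, rfl⟩
  have hN2 : 2 ≤ N := by
    rw [hN]
    have : (0 : ℝ) ≤ n := Nat.cast_nonneg n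
    nlinarith
  obtain ⟨r, hr⟩ : ∃ r : ℝ, r = ε / N := ⟨_, rfl⟩
  have hr0 : 0 < r := by rw [hr]; positivity
  have hrN : r * N = ε := by rw [hr]; field_simp
  have hr2 : r ≤ ε / 2 := by nlinarith
  have hr1 : r ≤ 1 := by linarith
  obtain ⟨ξ, hξe⟩ : ∃ ξ : ℝ, ξ = r ^ 2 / (1 + C₁ + C₂) := ⟨_, rfl⟩
  have hξ : 0 < ξ := by rw [hξe]; positivity
  have hξC : ξ * (1 + C₁ + C₂) = r ^ 2 := by rw [hξe]; field_simp
  have b1 : ξ ≤ r ^ 2 := by nlinarith
  have b1' : ξ ≤ r := by nlinarith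
  have b2 : C₁ * ξ ≤ r ^ 2 := by nlinarith
  have b3 : C₂ * ξ ≤ r ^ 2 := by nlinarith
  obtain ⟨δ₁, hδ₁, hA⟩ := hAL d n L ξ hξ
  refine ⟨min δ₁ (ε * Real.sqrt ρ), lt_min hδ₁ (by positivity), ?_⟩
  intro D _ τ P w φ h z Y X hτ hsys hdat
  let _ : PartialOrder D := CStarAlgebra.spectralOrder D
  have _ : StarOrderedRing D := CStarAlgebra.spectralOrderedRing D
  obtain ⟨α, hαP, hα0, hα1, hαn, hαx, hαh, hαX⟩ := hA D τ P φ h z Y X ρ ε hτ hsys.closed hε1
    (gslMono (min_le_left _ _) hdat)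
  have hαs : star α = α := (IsSelfAdjoint.of_nonneg hα0)
  have hαn1 : ‖α‖ ≤ 1 := (CStarAlgebra.norm_le_one_iff_of_nonneg α hα0).2 hα1
  -- the indices
  obtain ⟨κ, hκ⟩ : ∃ κ : Fin n → Fin L → ℕ, ∀ i l i' l', κ i l = κ i' l' → i = i' ∧ l = l' := by
    refine ⟨fun i l => (finProdFinEquiv (i, l) : Fin (n * L)).val, ?_⟩
    intro i l i' l' e
    have e1 := finProdFinEquiv.injective (Fin.ext e)
    exact ⟨congrArg Prod.fst e1, congrArg Prod.snd e1⟩
  obtain ⟨g1, g2⟩ := hG D τ P w φ h z Y X ε _ ξ κ α hτ hsys hdat (b1'.trans hr1) hκ hαP hα0 hα1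
    hαn hαh
  have hI' := hI D τ P w φ h z Y X ε _ ξ κ α hτ hsys hdat hε (min_le_right _ _) hκ hαP hα0 hα1 hαn
  obtain ⟨κ', k1, k2, k3⟩ := hCYC n D
  obtain ⟨m1, m2, m3, m4, m5, m6, m7, m8, m9, m10, m11, m12, m13, m14, m15⟩ := hMT1 D n
  obtain ⟨q1, q2, q3, q4, q5, q6, q7⟩ := hMT2 D n
  obtain ⟨t, ht⟩ : ∃ t : Fin n → D, t = fun j => sv τ w φ h κ α j := ⟨_, rfl⟩
  have g1' : ∀ i j : Fin n, ‖star (t i) * t j - (if i = j then α * α else 0)‖ ≤ r := by
    intro i j
    rw [ht]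
    exact (g1 i j).trans (b2.trans (by nlinarith))
  have g2' : ∀ j : Fin n, ‖α * t j‖ ≤ r := by
    intro j
    rw [ht]
    exact (pow_le_pow_iff_left₀ (norm_nonneg _) hr0.le two_ne_zero).1 ((g2 j).trans b2)
  obtain ⟨s, hs⟩ : ∃ s : Fin (n + 1) → D, s = Fin.cons α t := ⟨_, rfl⟩
  -- the Gram matrix
  have hgram : ‖star (rowM s) * rowM s - diagM (fun _ => α * α)‖ ≤ ε / 2 := by
    refine (q1 _).trans ?_
    have e1 : ∀ i j : Fin (n + 1), ‖(star (rowM s) * rowM s - diagM (fun _ => α * α) :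
        CStarMatrix (Fin (n + 1)) (Fin (n + 1)) D) i j‖ ≤ r := by
      intro i j
      rw [CStarMatrix.sub_apply, m9]
      show ‖star (s i) * s j - (if i = j then α * α else 0)‖ ≤ r
      rw [hs]
      refine Fin.cases ?_ (fun i => ?_) i
      · refine Fin.cases ?_ (fun j => ?_) j
        · simp only [Fin.cons_zero, if_true, hαs, sub_self, norm_zero]
          exact hr0.le
        · simp only [Fin.cons_zero, Fin.cons_succ, (Fin.succ_ne_zero j).symm, if_false, sub_zero,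
            hαs]
          exact g2' j
      · refine Fin.cases ?_ (fun j => ?_) j
        · simp only [Fin.cons_zero, Fin.cons_succ, Fin.succ_ne_zero i, if_false, sub_zero]
          have e2 : star (t i) * α = star (α * t i) := by rw [star_mul, hαs]
          rw [e2, norm_star]
          exact g2' i
        · simp only [Fin.cons_succ, Fin.succ_inj]
          exact g1' i j
    have e2 : ∑ i : Fin (n + 1), ∑ j : Fin (n + 1),
        ‖(star (rowM s) * rowM s - diagM (fun _ => α * α) :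
        CStarMatrix (Fin (n + 1)) (Fin (n + 1)) D) i j‖ ≤
        ∑ i : Fin (n + 1), ∑ j : Fin (n + 1), r :=
      Finset.sum_le_sum fun i _ => Finset.sum_le_sum fun j _ => e1 i j
    refine e2.trans (le_of_eq ?_)
    simp only [Finset.sum_const, Finset.card_univ, Fintype.card_fin, nsmul_eq_mul]
    push_cast
    rw [← hrN, hN]
    ring
  have hαα : ‖α * α‖ ≤ 1 := (norm_mul_le _ _).trans (mul_le_one₀ hαn1 (norm_nonneg _) hαn1)
  have hS : ‖rowM s‖ ≤ 2 := by
    have e1 : ‖rowM s‖ * ‖rowM s‖ = ‖star (rowM s) * rowM s‖ :=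
      (CStarRing.norm_star_mul_self (x := rowM s)).symm
    have e2 : ‖star (rowM s) * rowM s‖ ≤
        ‖star (rowM s) * rowM s - diagM (fun _ => α * α)‖ +
          ‖(diagM (fun _ => α * α) : CStarMatrix (Fin (n + 1)) (Fin (n + 1)) D)‖ := by
      have := norm_add_le (star (rowM s) * rowM s - diagM (fun _ => α * α))
        (diagM (fun _ => α * α))
      rwa [sub_add_cancel] at this
    have e3 := q2 (fun _ => α * α) 1 (fun _ => hαα)
    have e4 := norm_nonneg (rowM s)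
    nlinarith
  -- the element
  obtain ⟨k, hk⟩ : ∃ k : D, k = ∑ i, ∑ j, s i * (sclM D κ') i j * star (s j) := ⟨_, rfl⟩
  have hkc : rowM s * sclM D κ' * star (rowM s) = cornM n k := by
    rw [hk]
    exact m10 s s (sclM D κ')
  have hks : star k = k := by
    have e1 : cornM n (star k) = cornM n k := by
      rw [← m13, ← hkc, star_mul, star_mul, star_star, k1, mul_assoc]
    have e2 := congrFun (congrFun e1 0) 0
    have e3 : ∀ x : D, cornM n x 0 0 = x := by
      intro x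
      show (if (0 : Fin (n + 1)) = 0 ∧ (0 : Fin (n + 1)) = 0 then x else 0) = x
      simp
    rwa [e3, e3] at e2
  have hkW : k ∈ WA P w := by
    have hsW : ∀ i, s i ∈ WA P w := by
      intro i
      rw [hs]
      refine Fin.cases ?_ (fun i => ?_) i
      · rw [Fin.cons_zero]
        exact StarAlgebra.subset_adjoin ℂ _ (Or.inl hαP)
      · rw [Fin.cons_succ, ht]
        exact gslSv hdat.mem κ hαP i
    rw [hk]
    refine sum_mem fun i _ => sum_mem fun j _ => ?_
    refine mul_mem (mul_mem (hsW i) ?_) (star_mem (hsW j))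
    show κ' i j • (1 : D) ∈ _
    exact SMulMemClass.smul_mem _ (one_mem _)
  obtain ⟨u, hu⟩ : ∃ u : D, u = NormedSpace.exp (Complex.I • k) := ⟨_, rfl⟩
  have huU : u ∈ unitary D := by
    rw [hu]
    let _ : NormedAlgebra ℚ D := NormedAlgebra.restrictScalars ℚ ℂ D
    exact NormedSpace.exp_mem_unitary_of_mem_skewAdjoint
      (IsSelfAdjoint.smul_mem_skewAdjoint Complex.conj_I hks)
  have huW : u ∈ (WA P w).topologicalClosure := by
    rw [hu]
    apply gslExp _ (StarSubalgebra.isClosed_topologicalClosure _)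
    exact SMulMemClass.smul_mem _ (StarSubalgebra.le_topologicalClosure _ hkW)
  refine ⟨u, huW, huU.1, huU.2, fun m => ?_⟩
  have hxm := gslXc m
  have hmain := gslA hC hMT1 hMT2 D n κ' k1 k2 k3 α hαs hαn1 t (fun i => φ i (xc m))
    (fun i => X i m) (fun i => Y i m) ε hε.le
    (fun i => by rw [← map_star, hxm.2])
    (fun i => (NonUnitalStarAlgHom.norm_apply_le (φ i) _).trans hxm.1)
    (fun i => hdat.dec i m) (fun i => hdat.Xsa i m) (fun i => hdat.Yn i m)
    (fun i => hdat.near i m) (fun i => (hαx i m).trans (by linarith))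
    (fun i => (hαX i m).trans (by linarith))
    (by rw [← hs]; linarith) (by rw [← hs]; exact hS) ?_ ?_
  · rw [← hs, hkc, q6, ← hu] at hmain
    have cadd : ∀ x y : D, cornM n x + cornM n y = cornM n (x + y) := by
      intro x y
      have := m12 (x + y) y
      rw [add_sub_cancel_right] at this
      rw [← this]
      abel
    rw [add_mul, one_mul, mul_add, mul_one, m11, m11, cadd, cadd, m12, q3] at hmain
    have e1 : φ 0 (xc m) + (u - 1) * φ 0 (xc m) -
        (φ (Fin.last n) (xc m) + φ (Fin.last n) (xc m) * (u - 1)) =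
        u * φ 0 (xc m) - φ (Fin.last n) (xc m) * u := by noncomm_ring
    rw [e1] at hmain
    have e2 : u * φ 0 (xc m) * star u - φ (Fin.last n) (xc m) =
        (u * φ 0 (xc m) - φ (Fin.last n) (xc m) * u) * star u := by
      rw [sub_mul, mul_assoc (φ (Fin.last n) (xc m)), huU.2, mul_one]
    rw [e2]
    have e3 : ‖star u‖ ≤ 1 := by
      rw [norm_star]
      have e4 : ‖u‖ * ‖u‖ = ‖(1 : D)‖ := by
        rw [← CStarRing.norm_star_mul_self, huU.1]
      have e5 : ‖(1 : D)‖ ≤ 1 := by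
        have e6 : ‖(1 : D)‖ * ‖(1 : D)‖ = ‖(1 : D)‖ := by
          rw [← CStarRing.norm_star_mul_self, star_one, one_mul]
        rcases eq_or_ne ‖(1 : D)‖ 0 with e7 | e7
        · rw [e7]; exact zero_le_one
        · exact (mul_left_cancel₀ e7 (by rw [e6, mul_one])).le
      have e8 := norm_nonneg u
      nlinarith
    calc ‖(u * φ 0 (xc m) - φ (Fin.last n) (xc m) * u) * star u‖
        ≤ ‖u * φ 0 (xc m) - φ (Fin.last n) (xc m) * u‖ * ‖star u‖ := norm_mul_le _ _
      _ ≤ (C₀ * (6 * ε)) * 1 := mul_le_mul hmain e3 (norm_nonneg _) (by positivity)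
      _ = 6 * C₀ * ε := by ring
  · have e1 := (hI' m).1
    have e2 : Real.sqrt (C₂ * ξ) ≤ r := Real.sqrt_le_iff.2 ⟨hr0.le, b3⟩
    rw [ht]
    linarith
  · have e1 := (hI' m).2
    have e2 : Real.sqrt (C₂ * ξ) ≤ r := Real.sqrt_le_iff.2 ⟨hr0.le, b3⟩
    rw [ht]
    linarith

end Pool.Agent.FT
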