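import Pool.Agent.Lib.FT.SpecC

set_option autoImplicit false

open MeasureTheory

noncomputable section

namespace Pool.Agent.FT

section lems

variable {D : Type} [CStarAlgebra D] {d : ℕ}

private lemma int_apply (x : C(Cube d, ℝ)) (z : Cube d) : toC x z = (x z : ℂ) := rfl

private lemma int_mul (x y : C(Cube d, ℝ)) : toC (x * y) = toC x * toC y := by
  ext z
  simp [int_apply]

private lemma int_star (x : C(Cube d, ℝ)) : star (toC x) = toC x := by
  ext z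
  simp [int_apply]

private lemma int_norm (x : C(Cube d, ℝ)) (c : ℝ) (hc : 0 ≤ c) (h : ∀ z, |x z| ≤ c) :
    ‖toC x‖ ≤ c := by
  rw [ContinuousMap.norm_le _ hc]
  intro z
  rw [int_apply, Complex.norm_real, Real.norm_eq_abs]
  exact h z

private lemma int_fnorm (φ : C(Cube d, ℂ) →⋆ₐ[ℂ] D) (x : C(Cube d, ℝ)) (c : ℝ) (hc : 0 ≤ c)
    (h : ∀ z, |x z| ≤ c) : ‖φ (toC x)‖ ≤ c :=
  (NonUnitalStarAlgHom.norm_apply_le φ _).trans (int_norm x c hc h)

/-- the square root of a nonnegative function -/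
private lemma int_sqrt (φ : C(Cube d, ℂ) →⋆ₐ[ℂ] D) (F : C(Cube d, ℝ)) (hF : ∀ z, 0 ≤ F z) :
    ∃ y : D, φ (toC F) = star y * y := by
  let G : C(Cube d, ℝ) := ⟨fun z => Real.sqrt (F z), by fun_prop⟩
  refine ⟨φ (toC G), ?_⟩
  rw [← map_star, int_star, ← map_mul, ← int_mul]
  congr 2
  ext z
  change F z = Real.sqrt (F z) * Real.sqrt (F z)
  rw [Real.mul_self_sqrt (hF z)]

private lemma int_pos {τ : D →ₗ[ℂ] ℂ} (hτ : IsState τ) (φ : C(Cube d, ℂ) →⋆ₐ[ℂ] D)
    (F : C(Cube d, ℝ)) (hF : ∀ z, 0 ≤ F z) : 0 ≤ (τ (φ (toC F))).re := by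
  obtain ⟨y, hy⟩ := int_sqrt φ F hF
  rw [hy]
  exact hτ.re_nonneg y

private lemma int_nonneg [PartialOrder D] [StarOrderedRing D] (φ : C(Cube d, ℂ) →⋆ₐ[ℂ] D)
    (F : C(Cube d, ℝ)) (hF : ∀ z, 0 ≤ F z) : 0 ≤ φ (toC F) := by
  obtain ⟨y, hy⟩ := int_sqrt φ F hF
  rw [hy]
  exact star_mul_self_nonneg y

private lemma int_n2 (τ : D →ₗ[ℂ] ℂ) (φ : C(Cube d, ℂ) →⋆ₐ[ℂ] D) (y : C(Cube d, ℝ)) :
    n2 τ (φ (toC y)) = Real.sqrt (τ (φ (toC y * toC y))).re := by
  unfold n2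
  rw [← map_star, int_star, ← map_mul]

private lemma int_n2_le {τ : D →ₗ[ℂ] ℂ} (hτ : IsState τ) (φ : C(Cube d, ℂ) →⋆ₐ[ℂ] D)
    (y k : C(Cube d, ℝ)) (c : ℝ) (hc : 0 ≤ c) (h : ∀ z, |y z| ≤ c * |k z|) :
    n2 τ (φ (toC y)) ≤ c * n2 τ (φ (toC k)) := by
  have h0 : 0 ≤ (τ (φ (toC (c ^ 2 • (k * k) - y * y)))).re := by
    apply int_pos hτ
    intro z
    have h1 := h z
    have h2 : |y z| ^ 2 ≤ (c * |k z|) ^ 2 := by
      apply pow_le_pow_left₀ (abs_nonneg _) h1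
    rw [mul_pow, sq_abs, sq_abs] at h2
    simp only [ContinuousMap.sub_apply, ContinuousMap.smul_apply, ContinuousMap.mul_apply,
      smul_eq_mul]
    nlinarith
  have h1 : toC (c ^ 2 • (k * k) - y * y) = ((c ^ 2 : ℝ) : ℂ) • (toC k * toC k) - toC y * toC y := by
    ext z
    simp [int_apply]
  rw [h1, map_sub, map_smul, map_sub, map_smul, Complex.sub_re, smul_eq_mul,
    Complex.re_ofReal_mul] at h0
  have h2 : n2 τ (φ (toC y)) ^ 2 = (τ (φ (toC y * toC y))).re := by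
    rw [hτ.n2_sq, ← map_star, int_star, ← map_mul]
  have h3 : n2 τ (φ (toC k)) ^ 2 = (τ (φ (toC k * toC k))).re := by
    rw [hτ.n2_sq, ← map_star, int_star, ← map_mul]
  have h4 : n2 τ (φ (toC y)) ^ 2 ≤ (c * n2 τ (φ (toC k))) ^ 2 := by
    rw [mul_pow, h2, h3]
    linarith
  exact (sq_le_sq₀ (n2_nonneg _ _) (mul_nonneg hc (n2_nonneg _ _))).mp h4

/-- coordinates are between `0` and `1` -/
private lemma int_coord (m : Fin d) (z : Cube d) : 0 ≤ (cR m : C(Cube d, ℝ)) z ∧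
    (cR m : C(Cube d, ℝ)) z ≤ 1 := ⟨(z m).2.1, (z m).2.2⟩

private lemma int_shift (m : Fin d) (z p : Cube d) : |(cR m : C(Cube d, ℝ)) p - (z m : ℝ)| ≤ 1 := by
  have h1 := int_coord m p
  have h2 := (z m).2.1
  have h3 := (z m).2.2
  rw [abs_le]
  constructor <;> linarith

end lems

private lemma int_row {D : Type} [CStarAlgebra D] {n : ℕ} (x y : Fin n → D) :
    (rowM (Fin.cons (0 : D) (fun j => x j - y j)) : CStarMatrix (Fin (n + 1)) (Fin (n + 1)) D) =
      rowM (Fin.cons (0 : D) x) - rowM (Fin.cons (0 : D) y) := by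
  ext i j
  simp only [rowM, CStarMatrix.sub_apply, CStarMatrix.ofMatrix_apply]
  by_cases hi : i = 0
  · simp only [hi, if_true]
    refine Fin.cases ?_ (fun j => ?_) j
    · simp
    · simp
  · simp only [hi, if_false, sub_zero]

private lemma int_sum_le {D : Type} [CStarAlgebra D] [PartialOrder D] [StarOrderedRing D] {d L : ℕ}
    (φ : C(Cube d, ℂ) →⋆ₐ[ℂ] D) (y : Fin L → C(Cube d, ℝ)) (c : ℝ)
    (h : ∀ p, ∑ l, (y l p) ^ 2 ≤ c ^ 2) :
    ∑ l, star (φ (toC (y l))) * φ (toC (y l)) ≤ (c ^ 2) • (1 : D) := by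
  let F : C(Cube d, ℝ) := ⟨fun p => c ^ 2 - ∑ l, (y l p) ^ 2, by fun_prop⟩
  have h0 : 0 ≤ φ (toC F) := int_nonneg φ F (fun p => by
    have := h p
    change 0 ≤ c ^ 2 - ∑ l, (y l p) ^ 2
    linarith)
  have h1 : toC F = ((c ^ 2 : ℝ) : ℂ) • 1 - ∑ l, toC (y l) * toC (y l) := by
    ext p
    rw [int_apply]
    change ((c ^ 2 - ∑ l, (y l p) ^ 2 : ℝ) : ℂ) = _
    simp [int_apply, ContinuousMap.sum_apply, sq]
  have h2 : φ (toC F) = (c ^ 2) • (1 : D) - ∑ l, star (φ (toC (y l))) * φ (toC (y l)) := by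
    rw [h1, map_sub, map_smul, map_one, map_sum, Complex.coe_smul]
    congr 1
    apply Finset.sum_congr rfl
    intro l _
    rw [← map_star, int_star, ← map_mul]
  rw [h2] at h0
  exact sub_nonneg.mp h0

private lemma int_root {x a b : ℝ} (hx : 0 ≤ x) (ha : 0 ≤ a) (hb : 0 ≤ b) (h : x ^ 2 ≤ a ^ 2 + b) :
    x ≤ a + Real.sqrt b := by
  have h1 := Real.sqrt_nonneg b
  have h2 := Real.sq_sqrt hb
  apply (sq_le_sq₀ hx (add_nonneg ha h1)).mp
  nlinarith [mul_nonneg ha h1]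

private lemma int_term {D : Type} [CStarAlgebra D] (g F W α H f : D) (r c : ℂ) :
    g * (r • F * W * α * H) - r • F * W * α * H * f =
      r • ((g - c • 1) * F) * W * α * H - r • F * W * α * (H * f - c • H) := by
  simp only [sub_mul, mul_sub, smul_mul_assoc, mul_smul_comm, one_mul, mul_assoc, smul_sub]
  module

theorem pINT (h1 : S_RG) : S_INT := by
  intro d n L ρ hρ
  have hsρ : 0 < Real.sqrt ρ := Real.sqrt_pos.2 hρ
  set C' : ℝ := (1 + (n : ℝ) ^ 2) * (3 * (L : ℝ) ^ 2 * (2 / Real.sqrt ρ) ^ 2) with hC'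
  have hC'0 : 0 ≤ C' := by positivity
  refine ⟨4 * C' + 1, by positivity, ?_⟩
  intro D _ _ _ τ P w φ h z Y X ε δ ξ κ α hτ hsys hG hε hδ hκ hαP hα0 hα1 hαξ m
  have hnt : Nontrivial D := ⟨1, 0, fun h0 => by
    have := hτ.state.1
    rw [h0, map_zero] at this
    exact zero_ne_one this⟩
  have hαs : star α = α := (IsSelfAdjoint.of_nonneg hα0)
  have hαn : ‖α‖ ≤ 1 := (CStarAlgebra.norm_le_one_iff_of_nonneg α hα0).2 hα1
  have hξ : 0 ≤ ξ := (n2_nonneg τ α).trans hαξ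
  have hh1 : ∀ l p, h l p ≤ 1 := by
    intro l p
    have h2 : (h l p) ^ 2 ≤ 1 := by
      rw [← hG.hsq p]
      exact Finset.single_le_sum (f := fun l => (h l p) ^ 2) (fun l _ => sq_nonneg _)
        (Finset.mem_univ l)
    have h3 := hG.hnn l p
    nlinarith
  have hhabs : ∀ l p, |h l p| ≤ 1 := by
    intro l p
    rw [abs_of_nonneg (hG.hnn l p)]
    exact hh1 l p
  set q : Fin L → ℝ :=
    fun l => Real.sqrt (τ (φ (Fin.last n) (toC (h l) * toC (h l)))).re with hq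
  have hqn : ∀ l, n2 τ (φ (Fin.last n) (toC (h l))) = q l := fun l => int_n2 τ _ _
  have hqρ : ∀ l, Real.sqrt ρ ≤ q l := fun l => Real.sqrt_le_sqrt (hG.mass l)
  have hq0 : ∀ l, 0 < q l := fun l => hsρ.trans_le (hqρ l)
  have hr : ∀ l, ‖(((q l)⁻¹ : ℝ) : ℂ)‖ = (q l)⁻¹ := by
    intro l
    rw [Complex.norm_real, Real.norm_eq_abs, abs_of_pos (inv_pos.2 (hq0 l))]
  have hrρ : ∀ l, (q l)⁻¹ ≤ 1 / Real.sqrt ρ := by
    intro l
    rw [one_div]
    exact inv_anti₀ hsρ (hqρ l)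
  have hbound : ∀ (A B : ℝ) (p : Fin L → D) (b : Fin n → Fin L → D), (∀ l, p l ∈ P) →
      (∀ l, ‖p l‖ ≤ 2 / Real.sqrt ρ) → (∀ i l, b i l ∈ P) → (∀ i l, ‖b i l‖ ≤ 1) → 0 ≤ A →
      0 ≤ B → (∀ l, n2 τ (p l) ≤ A) →
      (∀ i, ∑ l, star (b i l) * b i l ≤ (B ^ 2) • (1 : D)) →
      ‖rowM (Fin.cons (0 : D) (fun i => ∑ l, p l * w (κ i l) * α * b i l) : Fin (n + 1) → D)‖ ≤
        A * B + Real.sqrt (C' * ξ) := by
    intro A B p b hp hpM hb hb1 hA hB hpA hbB
    have e1 := h1 D τ P w hτ hsys α hαP hαs hαn n L (2 / Real.sqrt ρ) A B p b κ hp hpM hb hb1 hκ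
      hA hB hpA hbB
    have e2 : (1 + (n : ℝ) ^ 2) * (3 * (L : ℝ) ^ 2 * (2 / Real.sqrt ρ) ^ 2 * n2 τ α) ≤ C' * ξ := by
      rw [hC', ← mul_assoc]
      exact mul_le_mul_of_nonneg_left hαξ hC'0
    apply int_root (norm_nonneg _) (mul_nonneg hA hB) (mul_nonneg hC'0 hξ)
    rw [mul_pow]
    linarith
  have key : ∀ g ∈ P, ‖g‖ ≤ 1 →
      (∀ l, n2 τ ((g - ((z l m : ℝ) : ℂ) • 1) * φ (Fin.last n) (toC (h l))) ≤ 3 * ε * q l) →
      ‖rowM (Fin.cons (0 : D) (fun j => g * sv τ w φ h κ α j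
          - sv τ w φ h κ α j * φ j.succ (xc m)) : Fin (n + 1) → D)‖ ≤
        4 * ε + Real.sqrt ((4 * C' + 1) * ξ) := by
    intro g hgP hg1 hgn
    set p1 : Fin L → D := fun l =>
      (((q l)⁻¹ : ℝ) : ℂ) • ((g - ((z l m : ℝ) : ℂ) • 1) * φ (Fin.last n) (toC (h l))) with hp1
    set b1 : Fin n → Fin L → D := fun j l => φ j.succ (toC (h l)) with hb1
    set p2 : Fin L → D := fun l => (((q l)⁻¹ : ℝ) : ℂ) • φ (Fin.last n) (toC (h l)) with hp2
    set y2 : Fin L → C(Cube d, ℝ) :=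
      fun l => h l * (cR m - ContinuousMap.const _ (z l m : ℝ)) with hy2
    set b2 : Fin n → Fin L → D := fun j l => φ j.succ (toC (y2 l)) with hb2
    have hfn : ∀ l, ‖φ (Fin.last n) (toC (h l))‖ ≤ 1 :=
      fun l => int_fnorm _ _ 1 zero_le_one (hhabs l)
    have e1 := hbound (3 * ε) 1 p1 b1
      (fun l => P.smul_mem (P.mul_mem (P.sub_mem hgP (P.smul_mem P.one_mem _))
        (hG.mem _ _)) _)
      (fun l => by
        rw [hp1]
        change ‖(((q l)⁻¹ : ℝ) : ℂ) • ((g - ((z l m : ℝ) : ℂ) • 1) *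
          φ (Fin.last n) (toC (h l)))‖ ≤ _
        rw [norm_smul, hr]
        have a1 : ‖g - ((z l m : ℝ) : ℂ) • (1 : D)‖ ≤ 2 := by
          refine (norm_sub_le _ _).trans ?_
          have : ‖((z l m : ℝ) : ℂ) • (1 : D)‖ ≤ 1 := by
            rw [norm_smul, Complex.norm_real, Real.norm_eq_abs, CStarRing.norm_one, mul_one,
              abs_of_nonneg (z l m).2.1]
            exact (z l m).2.2
          linarith
        have a2 : ‖(g - ((z l m : ℝ) : ℂ) • 1) * φ (Fin.last n) (toC (h l))‖ ≤ 2 * 1 :=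
          (norm_mul_le _ _).trans (mul_le_mul a1 (hfn l) (norm_nonneg _) (by norm_num))
        calc (q l)⁻¹ * ‖(g - ((z l m : ℝ) : ℂ) • 1) * φ (Fin.last n) (toC (h l))‖
            ≤ 1 / Real.sqrt ρ * (2 * 1) :=
              mul_le_mul (hrρ l) a2 (norm_nonneg _) (by positivity)
          _ = 2 / Real.sqrt ρ := by ring)
      (fun i l => hG.mem _ _)
      (fun i l => int_fnorm _ _ 1 zero_le_one (hhabs l))
      (by positivity) zero_le_one
      (fun l => by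
        rw [hp1]
        change n2 τ ((((q l)⁻¹ : ℝ) : ℂ) • ((g - ((z l m : ℝ) : ℂ) • 1) *
          φ (Fin.last n) (toC (h l)))) ≤ _
        rw [hτ.state.n2_smul, hr]
        calc (q l)⁻¹ * n2 τ ((g - ((z l m : ℝ) : ℂ) • 1) * φ (Fin.last n) (toC (h l)))
            ≤ (q l)⁻¹ * (3 * ε * q l) :=
              mul_le_mul_of_nonneg_left (hgn l) (inv_nonneg.2 (hq0 l).le)
          _ = 3 * ε := by
              have := (hq0 l).ne'
              field_simp)
      (fun i => int_sum_le _ _ 1 (fun p => by rw [hG.hsq p, one_pow]))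
    have hy2abs : ∀ l p, |y2 l p| ≤ ε * h l p ∧ |y2 l p| ≤ 1 := by
      intro l p
      have a1 : y2 l p = h l p * ((p m : ℝ) - (z l m : ℝ)) := rfl
      have a2 := hG.hz l m p
      have a3 := hG.hnn l p
      have a4 := int_shift m (z l) p
      have a5 : (cR m : C(Cube d, ℝ)) p = (p m : ℝ) := rfl
      rw [a5] at a4
      rw [a1, abs_mul, abs_of_nonneg a3]
      refine ⟨by rw [mul_comm]; exact a2, ?_⟩
      calc h l p * |(p m : ℝ) - (z l m : ℝ)| ≤ 1 * 1 :=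
            mul_le_mul (hh1 l p) a4 (abs_nonneg _) zero_le_one
        _ = 1 := one_mul 1
    have e2 := hbound 1 ε p2 b2
      (fun l => P.smul_mem (hG.mem _ _) _)
      (fun l => by
        rw [hp2]
        change ‖(((q l)⁻¹ : ℝ) : ℂ) • φ (Fin.last n) (toC (h l))‖ ≤ _
        rw [norm_smul, hr]
        calc (q l)⁻¹ * ‖φ (Fin.last n) (toC (h l))‖
            ≤ 1 / Real.sqrt ρ * 1 := mul_le_mul (hrρ l) (hfn l) (norm_nonneg _) (by positivity)
          _ ≤ 2 / Real.sqrt ρ := by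
              rw [mul_one]
              exact div_le_div_of_nonneg_right (by norm_num) hsρ.le)
      (fun i l => hG.mem _ _)
      (fun i l => int_fnorm _ _ 1 zero_le_one (fun p => (hy2abs l p).2))
      zero_le_one hε.le
      (fun l => by
        rw [hp2]
        change n2 τ ((((q l)⁻¹ : ℝ) : ℂ) • φ (Fin.last n) (toC (h l))) ≤ _
        rw [hτ.state.n2_smul, hr, hqn, inv_mul_cancel₀ (hq0 l).ne'])
      (fun i => int_sum_le _ _ ε (fun p => by
        calc ∑ l, (y2 l p) ^ 2 ≤ ∑ l, ε ^ 2 * (h l p) ^ 2 := by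
              apply Finset.sum_le_sum
              intro l _
              rw [← sq_abs (y2 l p), ← mul_pow]
              exact pow_le_pow_left₀ (abs_nonneg _) (hy2abs l p).1 2
          _ = ε ^ 2 := by rw [← Finset.mul_sum, hG.hsq p, mul_one]))
    have e3 : (fun j => g * sv τ w φ h κ α j - sv τ w φ h κ α j * φ j.succ (xc m)) =
        fun j => (∑ l, p1 l * w (κ j l) * α * b1 j l) - ∑ l, p2 l * w (κ j l) * α * b2 j l := by
      funext j
      unfold sv
      rw [Finset.mul_sum, Finset.sum_mul, ← Finset.sum_sub_distrib, ← Finset.sum_sub_distrib]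
      apply Finset.sum_congr rfl
      intro l _
      have a1 : b2 j l = φ j.succ (toC (h l)) * φ j.succ (xc m) -
          ((z l m : ℝ) : ℂ) • φ j.succ (toC (h l)) := by
        rw [hb2]
        change φ j.succ (toC (y2 l)) = _
        rw [← map_mul, ← map_smul, ← map_sub]
        congr 1
        ext p
        rw [int_apply]
        change ((h l p * ((p m : ℝ) - (z l m : ℝ)) : ℝ) : ℂ) = (h l p : ℂ) * ((p m : ℝ) : ℂ) -
          ((z l m : ℝ) : ℂ) * (h l p : ℂ)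
        push_cast
        ring
      rw [a1]
      exact int_term g (φ (Fin.last n) (toC (h l))) (w (κ j l)) α (φ j.succ (toC (h l)))
        (φ j.succ (xc m)) (((q l)⁻¹ : ℝ) : ℂ) ((z l m : ℝ) : ℂ)
    rw [e3, int_row]
    refine (norm_sub_le _ _).trans ((add_le_add e1 e2).trans ?_)
    have e4 : 2 * Real.sqrt (C' * ξ) ≤ Real.sqrt ((4 * C' + 1) * ξ) := by
      apply Real.le_sqrt_of_sq_le
      rw [mul_pow, Real.sq_sqrt (mul_nonneg hC'0 hξ)]
      nlinarith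
    linarith
  have hcoord : ∀ i, ‖φ i (xc m)‖ ≤ 1 := fun i => int_fnorm _ (cR m) 1 zero_le_one (fun p => by
    rw [abs_of_nonneg (int_coord m p).1]
    exact (int_coord m p).2)
  have hlast : ∀ l, n2 τ ((φ (Fin.last n) (xc m) - ((z l m : ℝ) : ℂ) • 1) *
      φ (Fin.last n) (toC (h l))) ≤ ε * q l := by
    intro l
    have a1 : (φ (Fin.last n) (xc m) - ((z l m : ℝ) : ℂ) • 1) * φ (Fin.last n) (toC (h l)) =
        φ (Fin.last n) (toC ((cR m - ContinuousMap.const _ (z l m : ℝ)) * h l)) := by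
      rw [← map_one (φ (Fin.last n)), ← map_smul, ← map_sub, ← map_mul]
      congr 1
      ext p
      rw [int_apply]
      change (((p m : ℝ) : ℂ) - ((z l m : ℝ) : ℂ) * 1) * (h l p : ℂ) =
        ((((p m : ℝ) - (z l m : ℝ)) * h l p : ℝ) : ℂ)
      push_cast
      ring
    rw [a1, ← hqn l]
    apply int_n2_le hτ.state _ _ _ _ hε.le
    intro p
    have a3 := hG.hnn l p
    change |((p m : ℝ) - (z l m : ℝ)) * h l p| ≤ ε * |h l p|
    rw [abs_mul, abs_of_nonneg a3]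
    exact hG.hz l m p
  refine ⟨key _ (hG.mem _ _) (hcoord _) ?_, key _ (hG.mem _ _) (hcoord _) ?_⟩
  · intro l
    have a1 : φ 0 (xc m) = φ (Fin.last n) (xc m) + (Y 0 m + X 0 m) := by
      rw [← hG.dec 0 m]
      abel
    have a2 : (φ 0 (xc m) - ((z l m : ℝ) : ℂ) • 1) * φ (Fin.last n) (toC (h l)) =
        (φ (Fin.last n) (xc m) - ((z l m : ℝ) : ℂ) • 1) * φ (Fin.last n) (toC (h l)) +
          (Y 0 m * φ (Fin.last n) (toC (h l)) + X 0 m * φ (Fin.last n) (toC (h l))) := by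
      rw [a1, ← add_mul, ← add_mul]
      congr 1
      abel
    rw [a2]
    have a3 : n2 τ (Y 0 m * φ (Fin.last n) (toC (h l))) ≤ ε * q l := by
      refine (hτ.state.n2_mul_le _ _).trans ?_
      rw [hqn]
      exact mul_le_mul_of_nonneg_right (hG.Yn 0 m) (hq0 l).le
    have a4 : n2 τ (X 0 m * φ (Fin.last n) (toC (h l))) ≤ ε * q l := by
      refine (hτ.n2_mul_le' _ _).trans ?_
      have b1 : n2 τ (X 0 m) * ‖φ (Fin.last n) (toC (h l))‖ ≤ n2 τ (X 0 m) * 1 :=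
        mul_le_mul_of_nonneg_left (int_fnorm _ _ 1 zero_le_one (hhabs l)) (n2_nonneg _ _)
      have b2 := hG.X2 0 m
      have b3 : ε * Real.sqrt ρ ≤ ε * q l := mul_le_mul_of_nonneg_left (hqρ l) hε.le
      linarith
    have a5 := hτ.state.n2_add_le
      ((φ (Fin.last n) (xc m) - ((z l m : ℝ) : ℂ) • 1) * φ (Fin.last n) (toC (h l)))
      (Y 0 m * φ (Fin.last n) (toC (h l)) + X 0 m * φ (Fin.last n) (toC (h l)))
    have a6 := hτ.state.n2_add_le (Y 0 m * φ (Fin.last n) (toC (h l)))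
      (X 0 m * φ (Fin.last n) (toC (h l)))
    have a7 := hlast l
    linarith
  · intro l
    have a7 := hlast l
    have a8 : 0 ≤ ε * q l := mul_nonneg hε.le (hq0 l).le
    linarith

end Pool.Agent.FT
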