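import Pool.Agent.Lib.FT.SpecC

/-!
# C44, module C/MT1: matrix identities
-/

set_option autoImplicit false

open MeasureTheory

namespace Pool.Agent.FT

namespace MT1

variable {D : Type} [CStarAlgebra D] {n : ℕ}

theorem diag_ap (x : Fin (n + 1) → D) (i j : Fin (n + 1)) :
    diagM x i j = if i = j then x i else 0 := rfl

theorem row_ap (s : Fin (n + 1) → D) (i j : Fin (n + 1)) :
    rowM s i j = if i = 0 then s j else 0 := rfl

theorem corn_ap (x : D) (i j : Fin (n + 1)) :
    cornM n x i j = if i = 0 ∧ j = 0 then x else 0 := rfl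

theorem scl_ap (κ : Fin (n + 1) → Fin (n + 1) → ℂ) (i j : Fin (n + 1)) :
    sclM D κ i j = κ i j • (1 : D) := rfl

theorem cyc_ap (i j : Fin (n + 1)) :
    cycM D n i j = (if i = j + 1 then (1 : ℂ) else 0) • (1 : D) := rfl

end MT1

open MT1 in
theorem pMT1 : S_MT1 := by
  intro D _ n
  refine ⟨?_, ?_, ?_, ?_, ?_, ?_, ?_, ?_, ?_, ?_, ?_, ?_, ?_, ?_, ?_⟩
  · ext i j
    rw [diag_ap, CStarMatrix.one_apply]
  · intro x y
    ext i j
    rw [CStarMatrix.mul_apply, diag_ap]
    rw [Finset.sum_eq_single i]
    · rw [diag_ap, diag_ap, if_pos rfl]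
      by_cases h : i = j
      · simp [h]
      · simp [h]
    · intro k _ hk
      rw [diag_ap, if_neg (fun h => hk h.symm), zero_mul]
    · intro h; exact absurd (Finset.mem_univ i) h
  · intro x
    ext i j
    rw [CStarMatrix.star_apply, diag_ap, diag_ap]
    by_cases h : i = j
    · subst h; simp
    · rw [if_neg h, if_neg (fun h' => h h'.symm), star_zero]
  · intro x y
    ext i j
    rw [CStarMatrix.add_apply, diag_ap, diag_ap, diag_ap]
    split_ifs <;> simp
  · intro x y
    ext i j
    rw [CStarMatrix.sub_apply, diag_ap, diag_ap, diag_ap]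
    split_ifs <;> simp
  · intro s x
    ext i j
    rw [CStarMatrix.mul_apply, row_ap, Finset.sum_eq_single j]
    · rw [row_ap, diag_ap]
      split_ifs <;> simp_all
    · intro k _ hk
      rw [diag_ap, if_neg hk, mul_zero]
    · intro h; exact absurd (Finset.mem_univ j) h
  · intro x s
    ext i j
    rw [CStarMatrix.mul_apply, row_ap, Finset.sum_eq_single 0]
    · rw [corn_ap, row_ap]
      by_cases h : i = 0
      · simp [h]
      · simp [h]
    · intro k _ hk
      rw [corn_ap, if_neg (fun h => hk h.2), zero_mul]
    · intro h; exact absurd (Finset.mem_univ 0) h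
  · intro s t
    ext i j
    rw [CStarMatrix.sub_apply, row_ap, row_ap, row_ap]
    split_ifs <;> simp
  · intro s t i j
    rw [CStarMatrix.mul_apply, Finset.sum_eq_single 0]
    · rw [CStarMatrix.star_apply, row_ap, row_ap, if_pos rfl, if_pos rfl]
    · intro k _ hk
      rw [row_ap, if_neg hk, mul_zero]
    · intro h; exact absurd (Finset.mem_univ 0) h
  · intro s t M
    ext i j
    rw [CStarMatrix.mul_apply, corn_ap]
    by_cases hi : i = 0
    · by_cases hj : j = 0
      · rw [if_pos ⟨hi, hj⟩]
        subst hi hj
        have e1 : ∀ k, (rowM s * M) 0 k * (star (rowM t)) k 0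
            = ∑ l, s l * M l k * star (t k) := by
          intro k
          rw [CStarMatrix.mul_apply, CStarMatrix.star_apply, row_ap, if_pos rfl, Finset.sum_mul]
          refine Finset.sum_congr rfl (fun l _ => ?_)
          rw [row_ap, if_pos rfl]
        rw [Finset.sum_congr rfl (fun k _ => e1 k), Finset.sum_comm]
      · rw [if_neg (fun h => hj h.2)]
        refine Finset.sum_eq_zero (fun k _ => ?_)
        rw [CStarMatrix.star_apply, row_ap, if_neg hj, star_zero, mul_zero]
    · rw [if_neg (fun h => hi h.1)]
      refine Finset.sum_eq_zero (fun k _ => ?_)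
      have : (rowM s * M) i k = 0 := by
        rw [CStarMatrix.mul_apply]
        refine Finset.sum_eq_zero (fun l _ => ?_)
        rw [row_ap, if_neg hi, zero_mul]
      rw [this, zero_mul]
  · intro x y
    ext i j
    rw [CStarMatrix.mul_apply, corn_ap, Finset.sum_eq_single 0]
    · rw [corn_ap, corn_ap]
      by_cases h : i = 0
      · by_cases h' : j = 0
        · simp [h, h']
        · simp [h, h']
      · simp [h]
    · intro k _ hk
      rw [corn_ap, if_neg (fun h => hk h.2), zero_mul]
    · intro h; exact absurd (Finset.mem_univ 0) h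
  · intro x y
    ext i j
    rw [CStarMatrix.sub_apply, corn_ap, corn_ap, corn_ap]
    split_ifs <;> simp
  · intro x
    ext i j
    rw [CStarMatrix.star_apply, corn_ap, corn_ap]
    by_cases h : i = 0
    · by_cases h' : j = 0
      · simp [h, h']
      · simp [h, h']
    · simp [h]
  · intro κ x
    ext i j
    rw [CStarMatrix.mul_apply, CStarMatrix.mul_apply, Finset.sum_eq_single j,
      Finset.sum_eq_single i]
    · rw [scl_ap, diag_ap, diag_ap, if_pos rfl, if_pos rfl, smul_mul_assoc, one_mul,
        mul_smul_comm, mul_one]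
    · intro k _ hk
      rw [diag_ap, if_neg (fun h => hk h.symm), zero_mul]
    · intro h; exact absurd (Finset.mem_univ i) h
    · intro k _ hk
      rw [diag_ap, if_neg hk, mul_zero]
    · intro h; exact absurd (Finset.mem_univ j) h
  · intro x y
    ext i j
    rw [CStarMatrix.sub_apply, CStarMatrix.mul_apply, CStarMatrix.mul_apply,
      CStarMatrix.mul_apply, Finset.sum_eq_single j, Finset.sum_eq_single i,
      Finset.sum_eq_single j]
    · rw [cyc_ap, diag_ap, diag_ap, diag_ap, if_pos rfl, if_pos rfl, if_pos rfl]
      by_cases h : i = j + 1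
      · rw [if_pos h, h]
        simp
      · rw [if_neg h]
        simp
    · intro k _ hk
      rw [diag_ap, if_neg hk, mul_zero]
    · intro h; exact absurd (Finset.mem_univ j) h
    · intro k _ hk
      rw [diag_ap, if_neg (fun h => hk h.symm), zero_mul]
    · intro h; exact absurd (Finset.mem_univ i) h
    · intro k _ hk
      rw [diag_ap, if_neg hk, mul_zero]
    · intro h; exact absurd (Finset.mem_univ j) h

end Pool.Agent.FT
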