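import Pool.Agent.Lib.FT.SpecC

/-!
# C44, module C/MT2: matrix norms
-/

set_option autoImplicit false

open MeasureTheory

namespace Pool.Agent.FT

namespace MT2

variable {D : Type} [CStarAlgebra D] [PartialOrder D] [StarOrderedRing D] {n : ℕ}

/-- `diagM` as a *-homomorphism -/
noncomputable def diagH (D : Type) [CStarAlgebra D] (n : ℕ) :
    (Fin (n + 1) → D) →⋆ₙₐ[ℂ] CStarMatrix (Fin (n + 1)) (Fin (n + 1)) D where
  toFun := diagM
  map_smul' c x := by
    refine CStarMatrix.ext fun i j => ?_
    change (if i = j then (c • x) i else 0) = c • (if i = j then x i else 0)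
    split_ifs <;> simp
  map_zero' := by
    refine CStarMatrix.ext fun i j => ?_
    change (if i = j then (0 : D) else 0) = 0
    simp
  map_add' x y := by
    refine CStarMatrix.ext fun i j => ?_
    change (if i = j then x i + y i else 0) = (if i = j then x i else 0) + (if i = j then y i else 0)
    split_ifs <;> simp
  map_mul' x y := by
    refine CStarMatrix.ext fun i j => ?_
    rw [CStarMatrix.mul_apply]
    change (if i = j then x i * y i else 0) =
      ∑ k, (if i = k then x i else 0) * (if k = j then y k else 0)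
    rw [Finset.sum_eq_single i]
    · rw [if_pos rfl]
      split_ifs <;> simp
    · intro k _ hk
      rw [if_neg (Ne.symm hk), zero_mul]
    · intro h
      exact absurd (Finset.mem_univ _) h
  map_star' x := by
    refine CStarMatrix.ext fun i j => ?_
    rw [CStarMatrix.star_apply]
    change (if i = j then star (x i) else 0) = star (if j = i then x j else 0)
    by_cases h : i = j
    · subst h
      simp
    · rw [if_neg h, if_neg (Ne.symm h), star_zero]

lemma norm_diag_le (x : Fin (n + 1) → D) (c : ℝ) (hx : ∀ i, ‖x i‖ ≤ c) : ‖diagM x‖ ≤ c := by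
  have h1 : ‖diagH D n x‖ ≤ ‖x‖ := NonUnitalStarAlgHom.norm_apply_le (diagH D n) x
  refine h1.trans ?_
  exact (pi_norm_le_iff_of_nonneg ((norm_nonneg _).trans (hx 0))).2 hx

/-- one entry matrix -/
def entM (i j : Fin (n + 1)) (x : D) : CStarMatrix (Fin (n + 1)) (Fin (n + 1)) D :=
  CStarMatrix.ofMatrix (fun a b => if a = i ∧ b = j then x else 0)

omit [PartialOrder D] [StarOrderedRing D] in
lemma entM_star_mul (i j : Fin (n + 1)) (x : D) :
    star (entM i j x) * entM i j x = diagM (fun k => if k = j then star x * x else 0) := by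
  refine CStarMatrix.ext fun a b => ?_
  rw [CStarMatrix.mul_apply]
  change ∑ k, star (entM i j x k a) * (entM i j x k b) =
    if a = b then (if a = j then star x * x else 0) else 0
  change ∑ k, star (if k = i ∧ a = j then x else 0) * (if k = i ∧ b = j then x else 0) = _
  rw [Finset.sum_eq_single i]
  · by_cases ha : a = j
    · by_cases hb : b = j
      · simp [ha, hb]
      · simp [ha, hb]
        intro h
        exact absurd h.symm hb
    · simp [ha]
  · intro k _ hk
    rw [if_neg (fun h => hk h.1), star_zero, zero_mul]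
  · intro h
    exact absurd (Finset.mem_univ _) h

lemma norm_entM_le (i j : Fin (n + 1)) (x : D) : ‖entM i j x‖ ≤ ‖x‖ := by
  have h1 : ‖star (entM i j x) * entM i j x‖ ≤ ‖x‖ * ‖x‖ := by
    rw [entM_star_mul]
    refine norm_diag_le _ _ fun k => ?_
    split_ifs
    · rw [CStarRing.norm_star_mul_self]
    · rw [norm_zero]
      positivity
  rw [CStarRing.norm_star_mul_self] at h1
  exact abs_le_of_sq_le_sq' (by nlinarith) (norm_nonneg _) |>.2

lemma norm_le_sum (M : CStarMatrix (Fin (n + 1)) (Fin (n + 1)) D) :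
    ‖M‖ ≤ ∑ i, ∑ j, ‖M i j‖ := by
  have h1 : M = ∑ i, ∑ j, entM i j (M i j) := by
    refine CStarMatrix.ext fun a b => ?_
    have h2 : ∀ (s : Finset (Fin (n + 1))) (f : Fin (n + 1) →
        CStarMatrix (Fin (n + 1)) (Fin (n + 1)) D), (∑ i ∈ s, f i) a b = ∑ i ∈ s, f i a b := by
      intro s f
      induction s using Finset.induction_on with
      | empty => simp
      | insert i s hi ih => rw [Finset.sum_insert hi, Finset.sum_insert hi, ← ih]; rfl
    rw [h2]
    simp only [h2]
    change M a b = ∑ i, ∑ j, (if a = i ∧ b = j then M i j else 0)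
    rw [Finset.sum_eq_single a, Finset.sum_eq_single b]
    · simp
    · intro j _ hj
      rw [if_neg fun h => hj h.2.symm]
    · intro h
      exact absurd (Finset.mem_univ _) h
    · intro i _ hi
      refine Finset.sum_eq_zero fun j _ => ?_
      rw [if_neg fun h => hi h.1.symm]
    · intro h
      exact absurd (Finset.mem_univ _) h
  conv_lhs => rw [h1]
  refine (norm_sum_le _ _).trans (Finset.sum_le_sum fun i _ => ?_)
  exact (norm_sum_le _ _).trans (Finset.sum_le_sum fun j _ => norm_entM_le i j _)

/-- `cornM` as a *-homomorphism -/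
noncomputable def cornH (D : Type) [CStarAlgebra D] (n : ℕ) :
    D →⋆ₙₐ[ℂ] CStarMatrix (Fin (n + 1)) (Fin (n + 1)) D where
  toFun := cornM n
  map_smul' c x := by
    refine CStarMatrix.ext fun i j => ?_
    change (if i = 0 ∧ j = 0 then c • x else 0) = c • (if i = 0 ∧ j = 0 then x else 0)
    split_ifs <;> simp
  map_zero' := by
    refine CStarMatrix.ext fun i j => ?_
    change (if i = 0 ∧ j = 0 then (0 : D) else 0) = 0
    simp
  map_add' x y := by
    refine CStarMatrix.ext fun i j => ?_
    change (if i = 0 ∧ j = 0 then x + y else 0) =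
      (if i = 0 ∧ j = 0 then x else 0) + (if i = 0 ∧ j = 0 then y else 0)
    split_ifs <;> simp
  map_mul' x y := by
    refine CStarMatrix.ext fun i j => ?_
    rw [CStarMatrix.mul_apply]
    change (if i = 0 ∧ j = 0 then x * y else 0) =
      ∑ k, (if i = 0 ∧ k = 0 then x else 0) * (if k = 0 ∧ j = 0 then y else 0)
    rw [Finset.sum_eq_single 0]
    · by_cases hi : i = 0 <;> by_cases hj : j = 0 <;> simp [hi, hj]
    · intro k _ hk
      rw [if_neg (fun h => hk h.2), zero_mul]
    · intro h
      exact absurd (Finset.mem_univ _) h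
  map_star' x := by
    refine CStarMatrix.ext fun i j => ?_
    rw [CStarMatrix.star_apply]
    change (if i = 0 ∧ j = 0 then star x else 0) = star (if j = 0 ∧ i = 0 then x else 0)
    by_cases hi : i = 0 <;> by_cases hj : j = 0 <;> simp [hi, hj]

lemma norm_corn (x : D) : ‖cornM n x‖ = ‖x‖ := by
  refine le_antisymm ?_ ?_
  · exact NonUnitalStarAlgHom.norm_apply_le (cornH D n) x
  · have h := CStarMatrix.norm_entry_le_norm (M := cornM n x) (i := 0) (j := 0)
    refine le_trans (le_of_eq ?_) h
    change ‖x‖ = ‖(if (0 : Fin (n + 1)) = 0 ∧ (0 : Fin (n + 1)) = 0 then x else 0)‖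
    simp

omit [PartialOrder D] [StarOrderedRing D] in
lemma row_star_mul (s : Fin (n + 1) → D) (a b : Fin (n + 1)) :
    (star (rowM s) * rowM s) a b = star (s a) * s b := by
  rw [CStarMatrix.mul_apply]
  change ∑ k : Fin (n + 1), star (if k = 0 then s a else 0) * (if k = 0 then s b else 0) = _
  rw [Finset.sum_eq_single 0]
  · simp
  · intro k _ hk
    rw [if_neg hk, star_zero, zero_mul]
  · intro h
    exact absurd (Finset.mem_univ _) h

lemma norm_row (e : Fin n → D) (G₀ G₁ : ℝ) (hG₀ : 0 ≤ G₀) (hG₁ : 0 ≤ G₁)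
    (h0 : ∀ i, ‖e i‖ ^ 2 ≤ G₀) (h1 : ∀ i j, i ≠ j → ‖star (e i) * e j‖ ≤ G₁) :
    ‖rowM (Fin.cons (0 : D) e : Fin (n + 1) → D)‖ ^ 2 ≤ G₀ + (n : ℝ) ^ 2 * G₁ := by
  set s : Fin (n + 1) → D := Fin.cons (0 : D) e with hs
  have hs0 : s 0 = 0 := rfl
  have hss : ∀ i : Fin n, s i.succ = e i := fun i => rfl
  set M := star (rowM s) * rowM s with hM
  set Δ : CStarMatrix (Fin (n + 1)) (Fin (n + 1)) D := diagM (fun i => star (s i) * s i) with hΔ
  have h2 : ‖Δ‖ ≤ G₀ := by
    refine norm_diag_le _ _ fun i => ?_
    rw [CStarRing.norm_star_mul_self, ← sq]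
    refine Fin.cases ?_ (fun j => ?_) i
    · rw [hs0, norm_zero]
      simpa using hG₀
    · rw [hss]
      exact h0 j
  have h3 : ∀ a b, (M - Δ) a b = if a = b then 0 else star (s a) * s b := by
    intro a b
    rw [CStarMatrix.sub_apply, hM, row_star_mul]
    change star (s a) * s b - (if a = b then star (s a) * s a else 0) = _
    by_cases h : a = b
    · subst h
      simp
    · rw [if_neg h, if_neg h, sub_zero]
  have h4 : ‖M - Δ‖ ≤ (n : ℝ) ^ 2 * G₁ := by
    refine (norm_le_sum _).trans ?_
    rw [Fin.sum_univ_succ]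
    have h5 : ∑ j, ‖(M - Δ) 0 j‖ = 0 := by
      refine Finset.sum_eq_zero fun j _ => ?_
      rw [h3, hs0]
      simp
    rw [h5, zero_add]
    have h6 : ∀ i : Fin n, ∑ j, ‖(M - Δ) i.succ j‖ ≤ (n : ℝ) * G₁ := by
      intro i
      rw [Fin.sum_univ_succ]
      have h7 : ‖(M - Δ) i.succ 0‖ = 0 := by
        rw [h3, hs0]
        simp
      rw [h7, zero_add]
      have h8 : ∀ j : Fin n, ‖(M - Δ) i.succ j.succ‖ ≤ G₁ := by
        intro j
        rw [h3, hss, hss]
        split_ifs with h
        · rw [norm_zero]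
          exact hG₁
        · exact h1 i j fun hij => h (by rw [hij])
      refine (Finset.sum_le_sum fun j _ => h8 j).trans (le_of_eq ?_)
      simp
    refine (Finset.sum_le_sum fun i _ => h6 i).trans (le_of_eq ?_)
    simp only [Finset.sum_const, Finset.card_univ, Fintype.card_fin, nsmul_eq_mul]
    ring
  have h9 : ‖rowM s‖ ^ 2 = ‖M‖ := by
    rw [hM, CStarRing.norm_star_mul_self, sq]
  rw [h9]
  have h10 : M = Δ + (M - Δ) := by abel
  calc ‖M‖ = ‖Δ + (M - Δ)‖ := by rw [← h10]
    _ ≤ ‖Δ‖ + ‖M - Δ‖ := norm_add_le _ _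
    _ ≤ G₀ + (n : ℝ) ^ 2 * G₁ := add_le_add h2 h4

lemma norm_one_le {A : Type} [CStarAlgebra A] : ‖(1 : A)‖ ≤ 1 := by
  have h : ‖(1 : A)‖ = ‖(1 : A)‖ * ‖(1 : A)‖ := by
    have := CStarRing.norm_star_mul_self (x := (1 : A))
    rwa [star_one, one_mul] at this
  nlinarith [norm_nonneg (1 : A), sq_nonneg (‖(1 : A)‖ - 1)]

end MT2

open MT2 in
theorem pMT2 : S_MT2 := by
  intro D _ _ _ n
  refine ⟨norm_le_sum, norm_diag_le, norm_corn, norm_row, ?_, ?_, ?_⟩
  · intro t e
    have h1 : rowM (Fin.cons t e : Fin (n + 1) → D) =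
        cornM n t + rowM (Fin.cons (0 : D) e : Fin (n + 1) → D) := by
      refine CStarMatrix.ext fun i j => ?_
      rw [CStarMatrix.add_apply]
      change (if i = 0 then (Fin.cons t e : Fin (n + 1) → D) j else 0) =
        (if i = 0 ∧ j = 0 then t else 0) +
          (if i = 0 then (Fin.cons (0 : D) e : Fin (n + 1) → D) j else 0)
      by_cases hi : i = 0
      · refine Fin.cases ?_ (fun j' => ?_) j
        · simp [hi]
        · simp [hi]
      · simp [hi]
    rw [h1, ← norm_corn (n := n) t]
    exact norm_add_le _ _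
  · intro k
    have hc : Continuous (cornH D n) :=
      AddMonoidHomClass.continuous_of_bound (cornH D n) 1 fun x => by
        rw [one_mul]
        exact NonUnitalStarAlgHom.norm_apply_le (cornH D n) x
    have hI : Complex.I • cornM n k = cornH D n (Complex.I • k) := by
      rw [map_smul]
      rfl
    set x : D := Complex.I • k with hx
    have h1 := NormedSpace.exp_series_hasSum_exp' (𝕂 := ℂ) x
    have h2 := h1.map (cornH D n) hc
    have h3 := NormedSpace.exp_series_hasSum_exp' (𝕂 := ℂ) (cornH D n x)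
    have h4 := h3.sub h2
    have h5 : HasSum (fun m : ℕ => (((m.factorial : ℂ)⁻¹ • (cornH D n x) ^ m) -
        (cornH D n ∘ fun m : ℕ => (m.factorial : ℂ)⁻¹ • x ^ m) m)) (1 - cornH D n 1) := by
      have h6 := hasSum_single (f := fun m : ℕ => (((m.factorial : ℂ)⁻¹ • (cornH D n x) ^ m) -
        (cornH D n ∘ fun m : ℕ => (m.factorial : ℂ)⁻¹ • x ^ m) m)) 0 (fun m hm => by
          obtain ⟨m, rfl⟩ := Nat.exists_eq_succ_of_ne_zero hm
          have h7 : ∀ m : ℕ, cornH D n (x ^ (m + 1)) = (cornH D n x) ^ (m + 1) := by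
            intro m
            induction m with
            | zero => simp
            | succ m ih => rw [pow_succ, map_mul, ih, pow_succ _ (m + 1)]
          simp only [Function.comp_apply, Nat.succ_eq_add_one]
          have h10 : cornH D n (((m + 1).factorial : ℂ)⁻¹ • x ^ (m + 1)) =
              ((m + 1).factorial : ℂ)⁻¹ • cornH D n (x ^ (m + 1)) := map_smul _ _ _
          rw [h10, h7, sub_self])
      simpa using h6
    have h8 := h4.unique h5
    rw [hI]
    have h9 : cornM n (NormedSpace.exp x - 1) = cornH D n (NormedSpace.exp x) - cornH D n 1 := by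
      rw [← map_sub]
      rfl
    rw [h9, sub_eq_iff_eq_add.1 h8]
    abel
  · have h1 : star (cycM D n) * cycM D n = 1 := by
      refine CStarMatrix.ext fun a b => ?_
      rw [CStarMatrix.mul_apply, CStarMatrix.one_apply]
      change ∑ k : Fin (n + 1), star ((if k = a + 1 then (1 : ℂ) else 0) • (1 : D)) *
        ((if k = b + 1 then (1 : ℂ) else 0) • (1 : D)) = _
      rw [Finset.sum_eq_single (a + 1)]
      · by_cases hab : a = b
        · subst hab
          simp
        · have : ¬ a + 1 = b + 1 := fun h => hab (add_right_cancel h)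
          simp [hab]
      · intro k _ hk
        rw [if_neg hk, zero_smul, star_zero, zero_mul]
      · intro h
        exact absurd (Finset.mem_univ _) h
    have h2 : ‖cycM D n‖ * ‖cycM D n‖ ≤ 1 := by
      rw [← CStarRing.norm_star_mul_self, h1]
      exact norm_one_le
    nlinarith [norm_nonneg (cycM D n)]

end Pool.Agent.FT
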