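import Pool.Agent.Lib.FT.C.SRS

/-!
# C44, module C/QX: the series `Qs` next to almost fixed elements
-/

set_option autoImplicit false

open MeasureTheory

noncomputable section

namespace Pool.Agent.FT

namespace QX

open SRS

variable {A : Type} [CStarAlgebra A]

theorem tm_succ' (K b : A) (m : ℕ) : tm K b (m + 1) = tm K b m * b * K := by
  unfold tm
  rw [pow_succ]
  simp only [mul_assoc]

theorem tm_norm' {K a : A} (hK : ‖K‖ ≤ 4) (ha : ‖a‖ ≤ 1) (m : ℕ) : ‖tm K a m‖ ≤ 4 ^ (m + 1) := by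
  induction m with
  | zero => rw [tm_zero]; norm_num; exact hK
  | succ m ih =>
    rw [tm_succ]
    calc ‖K * a * tm K a m‖ ≤ ‖K‖ * ‖a‖ * ‖tm K a m‖ :=
          (norm_mul_le _ _).trans (mul_le_mul_of_nonneg_right (norm_mul_le _ _) (norm_nonneg _))
      _ ≤ 4 * 1 * 4 ^ (m + 1) := by gcongr
      _ = 4 ^ (m + 1 + 1) := by ring

theorem pow_norm {K : A} (hK : ‖K‖ ≤ 4) (m : ℕ) : ‖K ^ (m + 1)‖ ≤ 4 ^ (m + 1) :=
  (norm_pow_le' K (Nat.succ_pos m)).trans (pow_le_pow_left₀ (norm_nonneg _) hK _)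

/-- summing the term bounds -/
theorem sum_bound (T : ℕ → A) (η : ℝ) (hη : 0 ≤ η) (S : A)
    (hT : ∀ m, ‖T m‖ ≤ m * (4 ^ (m + 1) * η)) (h : HasSum (fun m => cf m • T m) S) :
    ‖S‖ ≤ 4 * Real.exp 4 * η := by
  refine h.norm_le_of_bounded (((exp_hasSum 4).mul_left 4).mul_right η) (fun m => ?_)
  rw [norm_smul]
  calc ‖cf m‖ * ‖T m‖ ≤ ‖cf m‖ * (m * (4 ^ (m + 1) * η)) :=
        mul_le_mul_of_nonneg_left (hT m) (norm_nonneg _)
    _ ≤ ‖cf m‖ * ((m + 1) * (4 ^ (m + 1) * η)) := by gcongr; linarith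
    _ = (‖cf m‖ * (m + 1)) * (4 ^ (m + 1) * η) := by ring
    _ = 4 * (((m.factorial : ℕ) : ℝ)⁻¹ * 4 ^ m) * η := by rw [cf_norm_mul]; ring

theorem t1 {K a : A} (hK : ‖K‖ ≤ 4) (ha : ‖a‖ ≤ 1) (hc : K * a = a * K) (X : A) (m : ℕ) :
    ‖tm K a m * X - K ^ (m + 1) * X‖ ≤ m * (4 ^ (m + 1) * ‖(1 - a) * X‖) := by
  induction m with
  | zero => simp [tm_zero]
  | succ m ih =>
    have hca : K ^ (m + 1) * a = a * K ^ (m + 1) := by
      have : Commute K a := hc
      exact (this.pow_left (m + 1)).eq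
    have e : tm K a (m + 1) * X - K ^ (m + 1 + 1) * X
        = K * a * (tm K a m * X - K ^ (m + 1) * X) - K ^ (m + 1 + 1) * ((1 - a) * X) := by
      have e1 : K ^ (m + 1 + 1) * ((1 - a) * X) = K ^ (m + 1 + 1) * X - K * a * (K ^ (m + 1) * X) := by
        calc K ^ (m + 1 + 1) * ((1 - a) * X)
            = K ^ (m + 1 + 1) * X - K * (K ^ (m + 1) * a) * X := by
              rw [pow_succ' K (m + 1)]; noncomm_ring
          _ = K ^ (m + 1 + 1) * X - K * a * (K ^ (m + 1) * X) := by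
              rw [hca]; simp only [mul_assoc]
      rw [e1, tm_succ]
      simp only [mul_sub, mul_assoc]
      abel
    rw [e]
    have h1 : ‖K * a * (tm K a m * X - K ^ (m + 1) * X)‖
        ≤ 4 * 1 * (m * (4 ^ (m + 1) * ‖(1 - a) * X‖)) :=
      calc _ ≤ ‖K‖ * ‖a‖ * ‖tm K a m * X - K ^ (m + 1) * X‖ :=
          (norm_mul_le _ _).trans (mul_le_mul_of_nonneg_right (norm_mul_le _ _) (norm_nonneg _))
        _ ≤ _ := by gcongr
    have h2 : ‖K ^ (m + 1 + 1) * ((1 - a) * X)‖ ≤ 4 ^ (m + 1 + 1) * ‖(1 - a) * X‖ :=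
      (norm_mul_le _ _).trans (mul_le_mul_of_nonneg_right (pow_norm hK (m + 1)) (norm_nonneg _))
    calc _ ≤ _ := norm_sub_le _ _
      _ ≤ _ := add_le_add h1 h2
      _ = ((m + 1 : ℕ) : ℝ) * (4 ^ (m + 1 + 1) * ‖(1 - a) * X‖) := by push_cast; ring

theorem t2 {K a : A} (hK : ‖K‖ ≤ 4) (ha : ‖a‖ ≤ 1) (hc : K * a = a * K) (X : A) (m : ℕ) :
    ‖X * tm K a m - X * K ^ (m + 1)‖ ≤ m * (4 ^ (m + 1) * ‖X * (1 - a)‖) := by
  induction m with
  | zero => simp [tm_zero]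
  | succ m ih =>
    have hca : K ^ (m + 1) * a = a * K ^ (m + 1) := by
      have : Commute K a := hc
      exact (this.pow_left (m + 1)).eq
    have e : X * tm K a (m + 1) - X * K ^ (m + 1 + 1)
        = (X * tm K a m - X * K ^ (m + 1)) * (a * K) - (X * (1 - a)) * K ^ (m + 1 + 1) := by
      have e1 : (X * (1 - a)) * K ^ (m + 1 + 1)
          = X * K ^ (m + 1 + 1) - X * K ^ (m + 1) * (a * K) := by
        calc (X * (1 - a)) * K ^ (m + 1 + 1)
            = X * K ^ (m + 1 + 1) - X * (a * K ^ (m + 1)) * K := by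
              rw [pow_succ K (m + 1)]; noncomm_ring
          _ = X * K ^ (m + 1 + 1) - X * K ^ (m + 1) * (a * K) := by
              rw [← hca]; simp only [mul_assoc]
      rw [e1, tm_succ']
      simp only [sub_mul, mul_assoc]
      abel
    rw [e]
    have h1 : ‖(X * tm K a m - X * K ^ (m + 1)) * (a * K)‖
        ≤ (m * (4 ^ (m + 1) * ‖X * (1 - a)‖)) * (1 * 4) :=
      calc _ ≤ ‖X * tm K a m - X * K ^ (m + 1)‖ * (‖a‖ * ‖K‖) :=
          (norm_mul_le _ _).trans (mul_le_mul_of_nonneg_left (norm_mul_le _ _) (norm_nonneg _))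
        _ ≤ _ := by gcongr
    have h2 : ‖(X * (1 - a)) * K ^ (m + 1 + 1)‖ ≤ ‖X * (1 - a)‖ * 4 ^ (m + 1 + 1) :=
      (norm_mul_le _ _).trans (mul_le_mul_of_nonneg_left (pow_norm hK (m + 1)) (norm_nonneg _))
    calc _ ≤ _ := norm_sub_le _ _
      _ ≤ _ := add_le_add h1 h2
      _ = ((m + 1 : ℕ) : ℝ) * (4 ^ (m + 1 + 1) * ‖X * (1 - a)‖) := by push_cast; ring

theorem t3 {K a : A} (hK : ‖K‖ ≤ 4) (ha : ‖a‖ ≤ 1) (Λ : A) (hΛ : K * Λ = Λ * K) (m : ℕ) :
    ‖tm K a m * Λ - Λ * tm K a m‖ ≤ m * (4 ^ (m + 1) * ‖a * Λ - Λ * a‖) := by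
  induction m with
  | zero => rw [tm_zero, hΛ]; simp
  | succ m ih =>
    have e : tm K a (m + 1) * Λ - Λ * tm K a (m + 1)
        = K * a * (tm K a m * Λ - Λ * tm K a m) + K * (a * Λ - Λ * a) * tm K a m := by
      rw [tm_succ]
      have e1 : Λ * (K * a * tm K a m) = K * Λ * a * tm K a m := by
        rw [hΛ]; simp only [mul_assoc]
      rw [e1]
      simp only [mul_sub, sub_mul, mul_assoc]
      abel
    rw [e]
    have h1 : ‖K * a * (tm K a m * Λ - Λ * tm K a m)‖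
        ≤ 4 * 1 * (m * (4 ^ (m + 1) * ‖a * Λ - Λ * a‖)) :=
      calc _ ≤ ‖K‖ * ‖a‖ * ‖tm K a m * Λ - Λ * tm K a m‖ :=
          (norm_mul_le _ _).trans (mul_le_mul_of_nonneg_right (norm_mul_le _ _) (norm_nonneg _))
        _ ≤ _ := by gcongr
    have h2 : ‖K * (a * Λ - Λ * a) * tm K a m‖ ≤ 4 * ‖a * Λ - Λ * a‖ * 4 ^ (m + 1) :=
      calc _ ≤ ‖K‖ * ‖a * Λ - Λ * a‖ * ‖tm K a m‖ :=
          (norm_mul_le _ _).trans (mul_le_mul_of_nonneg_right (norm_mul_le _ _) (norm_nonneg _))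
        _ ≤ _ := by
          have := tm_norm' hK ha m
          gcongr
    calc _ ≤ _ := norm_add_le _ _
      _ ≤ _ := add_le_add h1 h2
      _ = ((m + 1 : ℕ) : ℝ) * (4 ^ (m + 1 + 1) * ‖a * Λ - Λ * a‖) := by push_cast; ring

end QX

open SRS QX in
theorem pQX : S_QX := by
  refine ⟨4 * Real.exp 4, by positivity, fun A _ K a hK ha hc => ?_⟩
  have ha4 : ‖a‖ ≤ 4 := ha.trans (by norm_num)
  have hs := term_sum hK ha4
  have he := exp_sub_one K
  refine ⟨fun X => ?_, fun X => ?_, fun Λ hΛ => ?_⟩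
  · have h := (hs.mul_right X).sub (he.mul_right X)
    refine sum_bound (fun m => tm K a m * X - K ^ (m + 1) * X) _ (norm_nonneg _) _
      (t1 hK ha hc X) ?_
    have e : (fun m => cf m • (tm K a m * X - K ^ (m + 1) * X))
        = fun m => cf m • tm K a m * X - cf m • K ^ (m + 1) * X := by
      funext m
      rw [smul_sub, smul_mul_assoc, smul_mul_assoc]
    rw [e]
    exact h
  · have h := (hs.mul_left X).sub (he.mul_left X)
    refine sum_bound (fun m => X * tm K a m - X * K ^ (m + 1)) _ (norm_nonneg _) _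
      (t2 hK ha hc X) ?_
    have e : (fun m => cf m • (X * tm K a m - X * K ^ (m + 1)))
        = fun m => X * (cf m • tm K a m) - X * (cf m • K ^ (m + 1)) := by
      funext m
      rw [smul_sub, mul_smul_comm, mul_smul_comm]
    rw [e]
    exact h
  · have h := (hs.mul_right Λ).sub (hs.mul_left Λ)
    refine sum_bound (fun m => tm K a m * Λ - Λ * tm K a m) _ (norm_nonneg _) _
      (t3 hK ha Λ hΛ) ?_
    have e : (fun m => cf m • (tm K a m * Λ - Λ * tm K a m))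
        = fun m => cf m • tm K a m * Λ - Λ * (cf m • tm K a m) := by
      funext m
      rw [smul_sub, smul_mul_assoc, mul_smul_comm]
    rw [e]
    exact h

end Pool.Agent.FT
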