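import Pool.Agent.Lib.FT.SpecC

/-!
# C44, block C: row form of Lemma G
-/

set_option autoImplicit false

open MeasureTheory

noncomputable section

namespace Pool.Agent.FT

private theorem sq_le_one_of {D : Type} [CStarAlgebra D] [PartialOrder D] [StarOrderedRing D]
    {α : D} (h1 : star α = α) (h2 : ‖α‖ ≤ 1) : α * α ≤ 1 := by
  have h0 : 0 ≤ α * α := by
    have := star_mul_self_nonneg α
    rwa [h1] at this
  rw [← CStarAlgebra.norm_le_one_iff_of_nonneg (α * α) h0]
  calc ‖α * α‖ ≤ ‖α‖ * ‖α‖ := norm_mul_le _ _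
    _ ≤ 1 * 1 := mul_le_mul h2 h2 (norm_nonneg _) zero_le_one
    _ = 1 := one_mul 1

theorem pRG (hG : S_G) (hM : S_MT2) : S_RG := by
  intro D _ _ _ τ P w htr hs α hα hsa hn n L M A B p b κ hp hpM hb hb1 hκ hA hB hpA hbB
  have hst := htr.state
  set e : Fin n → D := fun i => ∑ l, p l * w (κ i l) * α * b i l with he
  set E0 : ℝ := 3 * (L : ℝ) ^ 2 * M ^ 2 * n2 τ α with hE0
  have hE0' : 0 ≤ E0 := by
    have := n2_nonneg τ α
    positivity
  have key := hG D τ P w htr hs α hα hsa hn n L M p p b b κ hp hpM hp hpM hb hb1 hb hb1 hκ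
  obtain ⟨-, -, -, h4, -⟩ := hM D n
  have hoff : ∀ i j, i ≠ j → ‖star (e i) * e j‖ ≤ E0 := by
    intro i j hij
    have := key i j
    rw [if_neg hij, sub_zero] at this
    exact this
  have hα2 : α * α ≤ 1 := sq_le_one_of hsa hn
  have hα0 : 0 ≤ α * α := by
    have := star_mul_self_nonneg α
    rwa [hsa] at this
  have hdiag : ∀ i, ‖e i‖ ^ 2 ≤ A ^ 2 * B ^ 2 + E0 := by
    intro i
    have h := key i i
    rw [if_pos rfl] at h
    have e1 : ‖star (e i) * e i‖ = ‖e i‖ ^ 2 := by
      rw [CStarRing.norm_star_mul_self, sq]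
    set T : D := ∑ l, τ (star (p l) * p l) • (star (b i l) * (α * α) * b i l) with hT
    have hTl : ∀ l, τ (star (p l) * p l) • (star (b i l) * (α * α) * b i l) =
        (n2 τ (p l) ^ 2) • (star (b i l) * (α * α) * b i l) := by
      intro l
      rw [← hst.n2_sq' (p l), Complex.coe_smul]
    have hT0 : 0 ≤ T := by
      rw [hT]
      apply Finset.sum_nonneg
      intro l _
      rw [hTl]
      exact smul_nonneg (sq_nonneg _) (star_left_conjugate_nonneg hα0 _)
    have hTle : T ≤ (A ^ 2 * B ^ 2) • (1 : D) := by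
      calc T ≤ ∑ l, (A ^ 2) • (star (b i l) * b i l) := by
            rw [hT]
            apply Finset.sum_le_sum
            intro l _
            rw [hTl]
            have h5 : star (b i l) * (α * α) * b i l ≤ star (b i l) * b i l := by
              have := star_left_conjugate_le_conjugate hα2 (b i l)
              rwa [mul_one] at this
            have h6 : (n2 τ (p l)) ^ 2 ≤ A ^ 2 := by
              have := n2_nonneg τ (p l)
              exact pow_le_pow_left₀ this (hpA l) 2
            calc (n2 τ (p l) ^ 2) • (star (b i l) * (α * α) * b i l)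
                ≤ (n2 τ (p l) ^ 2) • (star (b i l) * b i l) :=
                  smul_le_smul_of_nonneg_left h5 (sq_nonneg _)
              _ ≤ (A ^ 2) • (star (b i l) * b i l) :=
                  smul_le_smul_of_nonneg_right h6 (star_mul_self_nonneg _)
        _ = (A ^ 2) • ∑ l, (star (b i l) * b i l) := by rw [Finset.smul_sum]
        _ ≤ (A ^ 2) • ((B ^ 2) • (1 : D)) := smul_le_smul_of_nonneg_left (hbB i) (sq_nonneg _)
        _ = (A ^ 2 * B ^ 2) • (1 : D) := by rw [smul_smul]
    have hTn : ‖T‖ ≤ A ^ 2 * B ^ 2 := by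
      rw [CStarAlgebra.norm_le_iff_le_algebraMap T (by positivity) hT0,
        Algebra.algebraMap_eq_smul_one]
      exact hTle
    have h7 : ‖star (e i) * e i‖ ≤ ‖T‖ + E0 := by
      have h8 : star (e i) * e i = (star (e i) * e i - T) + T := by abel
      calc ‖star (e i) * e i‖ = ‖(star (e i) * e i - T) + T‖ := by rw [← h8]
        _ ≤ ‖star (e i) * e i - T‖ + ‖T‖ := norm_add_le _ _
        _ ≤ E0 + ‖T‖ := by gcongr
        _ = ‖T‖ + E0 := add_comm _ _
    rw [e1] at h7
    linarith
  have := h4 e (A ^ 2 * B ^ 2 + E0) E0 (by positivity) hE0' hdiag hoff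
  calc ‖rowM (Fin.cons (0 : D) e : Fin (n + 1) → D)‖ ^ 2
      ≤ A ^ 2 * B ^ 2 + E0 + (n : ℝ) ^ 2 * E0 := this
    _ = A ^ 2 * B ^ 2 + (1 + (n : ℝ) ^ 2) * E0 := by ring

end Pool.Agent.FT
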