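import Pool.Agent.Lib.FT.SpecC

/-!
# C44, module C/SRS: the series `Qs`
-/

set_option autoImplicit false

open MeasureTheory

noncomputable section

namespace Pool.Agent.FT

namespace SRS

variable {A : Type} [CStarAlgebra A]

/-- coefficient of the series -/
def cf (m : ℕ) : ℂ := Complex.I ^ (m + 1) / ((m + 1).factorial : ℂ)

theorem cf_norm (m : ℕ) : ‖cf m‖ = ((m + 1).factorial : ℝ)⁻¹ := by
  unfold cf
  rw [norm_div, norm_pow, Complex.norm_I, one_pow, Complex.norm_natCast, one_div]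

theorem cf_norm_mul (m : ℕ) : ‖cf m‖ * ((m : ℝ) + 1) = ((m.factorial : ℕ) : ℝ)⁻¹ := by
  rw [cf_norm, Nat.factorial_succ]
  push_cast
  have : (m.factorial : ℝ) ≠ 0 := by exact_mod_cast m.factorial_ne_zero
  have h2 : (m : ℝ) + 1 ≠ 0 := by positivity
  field_simp

theorem cf_norm_le (m : ℕ) : ‖cf m‖ ≤ ((m.factorial : ℕ) : ℝ)⁻¹ := by
  rw [← cf_norm_mul m]
  have : 0 ≤ ‖cf m‖ := norm_nonneg _
  have h2 : (0 : ℝ) ≤ m := Nat.cast_nonneg m
  nlinarith

/-- the `m`-th term without coefficient -/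
def tm (K b : A) (m : ℕ) : A := (K * b) ^ m * K

theorem tm_zero (K b : A) : tm K b 0 = K := by simp [tm]

theorem tm_succ (K b : A) (m : ℕ) : tm K b (m + 1) = K * b * tm K b m := by
  unfold tm
  rw [pow_succ', mul_assoc]

theorem tm_norm {K b : A} (hK : ‖K‖ ≤ 4) (hb : ‖b‖ ≤ 4) (m : ℕ) : ‖tm K b m‖ ≤ 16 ^ m * 4 := by
  induction m with
  | zero => rw [tm_zero]; linarith
  | succ m ih =>
    rw [tm_succ]
    calc ‖K * b * tm K b m‖ ≤ ‖K‖ * ‖b‖ * ‖tm K b m‖ :=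
          (norm_mul_le _ _).trans (mul_le_mul_of_nonneg_right (norm_mul_le _ _) (norm_nonneg _))
      _ ≤ 4 * 4 * (16 ^ m * 4) := by gcongr
      _ = 16 ^ (m + 1) * 4 := by ring

theorem tm_sub {K b b' : A} (hK : ‖K‖ ≤ 4) (hb : ‖b‖ ≤ 4) (hb' : ‖b'‖ ≤ 4) (m : ℕ) :
    ‖tm K b m - tm K b' m‖ ≤ m * (16 ^ m * ‖b - b'‖) := by
  induction m with
  | zero => simp [tm_zero]
  | succ m ih =>
    have e : tm K b (m + 1) - tm K b' (m + 1)
        = K * b * (tm K b m - tm K b' m) + K * (b - b') * tm K b' m := by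
      rw [tm_succ, tm_succ]; noncomm_ring
    rw [e]
    have h1 : ‖K * b * (tm K b m - tm K b' m)‖ ≤ 4 * 4 * (m * (16 ^ m * ‖b - b'‖)) :=
      calc ‖K * b * (tm K b m - tm K b' m)‖ ≤ ‖K‖ * ‖b‖ * ‖tm K b m - tm K b' m‖ :=
          (norm_mul_le _ _).trans (mul_le_mul_of_nonneg_right (norm_mul_le _ _) (norm_nonneg _))
        _ ≤ 4 * 4 * (m * (16 ^ m * ‖b - b'‖)) := by gcongr
    have h2 : ‖K * (b - b') * tm K b' m‖ ≤ 4 * ‖b - b'‖ * (16 ^ m * 4) :=
      calc ‖K * (b - b') * tm K b' m‖ ≤ ‖K‖ * ‖b - b'‖ * ‖tm K b' m‖ :=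
          (norm_mul_le _ _).trans (mul_le_mul_of_nonneg_right (norm_mul_le _ _) (norm_nonneg _))
        _ ≤ 4 * ‖b - b'‖ * (16 ^ m * 4) := by
          have := tm_norm hK hb' m
          gcongr
    calc _ ≤ _ := norm_add_le _ _
      _ ≤ 4 * 4 * (m * (16 ^ m * ‖b - b'‖)) + 4 * ‖b - b'‖ * (16 ^ m * 4) := add_le_add h1 h2
      _ = ((m + 1 : ℕ) : ℝ) * (16 ^ (m + 1) * ‖b - b'‖) := by push_cast; ring

theorem exp_hasSum (r : ℝ) : HasSum (fun m : ℕ => ((m.factorial : ℕ) : ℝ)⁻¹ * r ^ m) (Real.exp r) := by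
  have h := NormedSpace.exp_series_hasSum_exp' (𝕂 := ℝ) r
  rw [← Real.exp_eq_exp_ℝ] at h
  simpa [smul_eq_mul] using h

theorem term_norm {K b : A} (hK : ‖K‖ ≤ 4) (hb : ‖b‖ ≤ 4) (m : ℕ) :
    ‖cf m • tm K b m‖ ≤ 4 * (((m.factorial : ℕ) : ℝ)⁻¹ * 16 ^ m) := by
  rw [norm_smul]
  calc ‖cf m‖ * ‖tm K b m‖ ≤ ((m.factorial : ℕ) : ℝ)⁻¹ * (16 ^ m * 4) :=
        mul_le_mul (cf_norm_le m) (tm_norm hK hb m) (norm_nonneg _) (by positivity)
    _ = 4 * (((m.factorial : ℕ) : ℝ)⁻¹ * 16 ^ m) := by ring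

theorem term_sum {K b : A} (hK : ‖K‖ ≤ 4) (hb : ‖b‖ ≤ 4) :
    HasSum (fun m => cf m • tm K b m) (Qs K b) := by
  have h : Summable (fun m => cf m • tm K b m) :=
    Summable.of_norm_bounded ((exp_hasSum 16).mul_left 4).summable (term_norm hK hb)
  exact h.hasSum

theorem term_sub {K b b' : A} (hK : ‖K‖ ≤ 4) (hb : ‖b‖ ≤ 4) (hb' : ‖b'‖ ≤ 4) (m : ℕ) :
    ‖cf m • tm K b m - cf m • tm K b' m‖ ≤
      (((m.factorial : ℕ) : ℝ)⁻¹ * 16 ^ m) * ‖b - b'‖ := by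
  rw [← smul_sub, norm_smul]
  calc ‖cf m‖ * ‖tm K b m - tm K b' m‖ ≤ ‖cf m‖ * (m * (16 ^ m * ‖b - b'‖)) :=
        mul_le_mul_of_nonneg_left (tm_sub hK hb hb' m) (norm_nonneg _)
    _ ≤ ‖cf m‖ * ((m + 1) * (16 ^ m * ‖b - b'‖)) := by gcongr; linarith
    _ = (‖cf m‖ * (m + 1)) * (16 ^ m * ‖b - b'‖) := by ring
    _ = (((m.factorial : ℕ) : ℝ)⁻¹ * 16 ^ m) * ‖b - b'‖ := by rw [cf_norm_mul]; ring

/-- `(I S K S*)^{m+1}` -/
theorem pow_id (S K : A) (m : ℕ) :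
    (S * K * star S) ^ (m + 1) = S * tm K (star S * S) m * star S := by
  induction m with
  | zero => rw [tm_zero, zero_add, pow_one]
  | succ m ih =>
    rw [pow_succ', ih, tm_succ]
    simp only [mul_assoc]

/-- exponential minus one -/
theorem exp_sub_one (x : A) :
    HasSum (fun m : ℕ => cf m • x ^ (m + 1)) (NormedSpace.exp (Complex.I • x) - 1) := by
  have h := NormedSpace.exp_series_hasSum_exp' (𝕂 := ℂ) (Complex.I • x)
  have h2 := (hasSum_nat_add_iff' 1).2 h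
  simp only [Finset.range_one, Finset.sum_singleton, Nat.factorial_zero, Nat.cast_one, inv_one,
    pow_zero, one_smul] at h2
  have e : (fun m : ℕ => cf m • x ^ (m + 1))
      = fun n : ℕ => (((n + 1).factorial : ℕ) : ℂ)⁻¹ • (Complex.I • x) ^ (n + 1) := by
    funext m
    rw [smul_pow, smul_smul]
    unfold cf
    rw [div_eq_mul_inv, mul_comm]
  rw [e]
  exact h2

end SRS

open SRS in
theorem pSRS : S_SRS := by
  refine ⟨4 * Real.exp 16, by positivity, fun A _ K hK => ⟨?_, ?_, ?_⟩⟩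
  · intro b hb
    have h := term_sum hK hb
    exact h.norm_le_of_bounded ((exp_hasSum 16).mul_left 4) (term_norm hK hb)
  · intro b b' hb hb'
    have h := (term_sum hK hb).sub (term_sum hK hb')
    have h2 := h.norm_le_of_bounded ((exp_hasSum 16).mul_right ‖b - b'‖) (term_sub hK hb hb')
    have : Real.exp 16 * ‖b - b'‖ ≤ 4 * Real.exp 16 * ‖b - b'‖ := by
      have h3 : 0 ≤ Real.exp 16 * ‖b - b'‖ := by positivity
      linarith
    exact h2.trans this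
  · intro S hS
    have hb : ‖star S * S‖ ≤ 4 := by
      calc ‖star S * S‖ ≤ ‖star S‖ * ‖S‖ := norm_mul_le _ _
        _ = ‖S‖ * ‖S‖ := by rw [norm_star]
        _ ≤ 2 * 2 := by gcongr
        _ = 4 := by norm_num
    have h := ((term_sum hK hb).mul_left S).mul_right (star S)
    have h2 := exp_sub_one (S * K * star S)
    have e : (fun m : ℕ => cf m • (S * K * star S) ^ (m + 1))
        = fun m => S * (cf m • tm K (star S * S) m) * star S := by
      funext m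
      rw [pow_id, mul_smul_comm, smul_mul_assoc]
    rw [e] at h2
    have := h2.unique h
    rw [← this]
    abel

end Pool.Agent.FT
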